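import Pool.Agent.Lib_MP_f6e057_co.AC.NB
import Pool.Agent.Lib_MP_f6e057_co.Embed

/-!
# Greedy embedding of a tree into a set of large minimum degree
-/

set_option autoImplicit false
set_option linter.unusedSectionVars false

namespace Pool.Agent.Lib_MP_f6e057_co.AC

open Finset

section
variable {V : Type*} [Fintype V] [DecidableEq V] (G : SimpleGraph V) [DecidableRel G.Adj]

/-- **Proof.** `embed_tree` (Embed.lean) with `Good Y := Y ⊆ O`, `M = Fintype.card W`: for `Y ⊆ O` with
`|Y| < |W|` and `u ∈ Y`, the vertex `u` has at least `|W| - 1` neighbours in `O`, and at most `|Y| - 1` of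
them are in `Y`. -/
theorem embed_in {W : Type} [Fintype W] {T : SimpleGraph W} (hT : T.IsTree) {O : Finset V}
    (hO : O.Nonempty) (hd : ∀ v ∈ O, Fintype.card W ≤ dg G O v + 1) :
    ∃ g : W → V, Exch.IsCopy T G g ∧ ∀ x, g x ∈ O := by
  obtain ⟨o, ho⟩ := hO
  obtain ⟨φ, h1, h2⟩ := embed_tree G (fun Y => Y ⊆ O) ⟨o, by simpa using ho⟩ (Fintype.card W)
    (by
      intro Y u hY hc hu
      by_contra hcon
      push Not at hcon
      have hsub : (O.filter fun w => G.Adj u w) ⊆ Y.erase u := by
        intro w hw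
        rw [mem_filter] at hw
        rw [mem_erase]
        refine ⟨hw.2.ne', ?_⟩
        by_contra hwY
        exact hcon w hwY hw.2 (insert_subset hw.1 hY)
      have h2 := card_le_card hsub
      rw [card_erase_of_mem hu] at h2
      have h3 := hd u (hY hu)
      have h4 : 0 < Y.card := card_pos.mpr ⟨u, hu⟩
      unfold dg at h3
      omega) (Fintype.card W) W T hT rfl le_rfl
  exact ⟨φ, ⟨φ.injective, h1⟩, fun x => h2 (mem_map_of_mem _ (mem_univ _))⟩

end

end Pool.Agent.Lib_MP_f6e057_co.AC
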