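import Pool.Agent.Lib_MP_f6e057_co.AC.Car

/-!
# Few critical vertices in an inseparable set of noncritical vertices
-/

set_option autoImplicit false
set_option linter.unusedSectionVars false

namespace Pool.Agent.Lib_MP_f6e057_co.AC

open Finset

section
variable {V : Type*} [Fintype V] [DecidableEq V] (G : SimpleGraph V) [DecidableRel G.Adj]

/-- a set with at most `k` neighbours either misses `J` or dominates `J` -/
theorem inside_DI {k : ℕ} {M J A : Finset V} (hJM : J ⊆ M)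
    (hJ : ∀ U ⊆ J, U.Nonempty → (J \ (U ∪ nbL G J U)).Nonempty → k + 1 ≤ (nbL G J U).card)
    (hA : (nbL G M A).card ≤ k) : Disjoint A J ∨ J ⊆ A ∪ nbL G M A := by
  by_cases hd : Disjoint A J
  · exact Or.inl hd
  refine Or.inr ?_
  have hsub : nbL G J (A ∩ J) ⊆ nbL G M A := by
    intro v hv
    rw [mem_nbL] at hv ⊢
    obtain ⟨hvJ, hvU, u, hu, huv⟩ := hv
    rw [mem_inter] at hvU hu
    exact ⟨hJM hvJ, fun hvA => hvU ⟨hvA, hvJ⟩, u, hu.1, huv⟩
  have hne : (A ∩ J).Nonempty := by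
    rw [Finset.not_disjoint_iff] at hd
    obtain ⟨a, ha, hb⟩ := hd
    exact ⟨a, mem_inter.2 ⟨ha, hb⟩⟩
  have hE : ¬ (J \ (A ∩ J ∪ nbL G J (A ∩ J))).Nonempty := by
    intro hX
    have h1 := hJ _ inter_subset_right hne hX
    have h2 := card_le_card hsub
    omega
  rw [not_nonempty_iff_eq_empty, sdiff_eq_empty_iff_subset] at hE
  refine hE.trans (union_subset_union inter_subset_left hsub)

/-- the critical vertices of `J` seen by the tight sets at `b` which miss `J` -/
theorem inside_choice {k : ℕ} {H B M J : Finset V} {b : V} (h : Car G k H B M) (hJM : J ⊆ M)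
    (hb : b ∈ B) : ∃ Z : Finset V, Z.card ≤ k ∧ ∀ U, Tight G k H M b U → Disjoint U J →
      ∀ y ∈ J, y ∈ nbL G M U → y ∈ Z := by
  classical
  by_cases hex : ∃ U, Tight G k H M b U ∧ Disjoint U J
  · obtain ⟨U0, hU0⟩ := hex
    obtain ⟨W, hW, hmax⟩ := exists_max_image
      (univ.filter fun U : Finset V => Tight G k H M b U ∧ Disjoint U J) (fun U => U.card)
      ⟨U0, by simpa using hU0⟩
    simp only [mem_filter, mem_univ, true_and] at hW hmax
    refine ⟨nbL G M W, hW.1.card.le, ?_⟩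
    intro U hU hUJ y hyJ hy
    have hun := h.tight_union G hb hU hW.1
    have hun' : Disjoint (U ∪ W) J := disjoint_union_left.2 ⟨hUJ, hW.2⟩
    have hc := hmax _ ⟨hun, hun'⟩
    have hWeq : W = U ∪ W := eq_of_subset_of_card_le subset_union_right hc
    have hUW : U ⊆ W := by
      rw [hWeq]
      exact subset_union_left
    rw [mem_nbL] at hy ⊢
    obtain ⟨hyM, -, u, hu, huy⟩ := hy
    exact ⟨hyM, fun hyW => disjoint_left.1 hW.2 hyW hyJ, u, hUW hu, huy⟩
  · push Not at hex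
    refine ⟨∅, by simp, ?_⟩
    intro U hU hUJ
    exact absurd hUJ (hex U hU)

/-- **Proof.** `N = nbL G M`. (DI) If `A ⊆ M`, `|N(A)| ≤ k`, then `A ∩ J = ∅` or `J ⊆ A ∪ N(A)`: apply
`hJ` to `U = A ∩ J`, `nbL G J U ⊆ N(A)`.
By `hy`, `Car.region` and (DI) there is a region `R` (`Reg G k H M R`) with `J ⊆ R ∪ N(R)`; choose one with
`(|N(R)|, |R|)` lexicographically minimal; `S = N(R)`, `|S| ≤ k - 1`. Let `y ∈ X`, `y ∉ B`, so
by `Car.tight` there is a tight `U` at `b0 ∈ B` with `y ∈ N(U)`.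
Case 1: `J ⊆ U ∪ N(U)`. `J \ (R ∩ U) ⊆ S ∪ N(U)` has at most `2 k - 1` elements, so `R ∩ U` meets `J`;
`|N(R ∩ U)| ≤ |N(R)|` (`Car.inter_le`), so by (DI) `R ∩ U` is in the family; by minimality `R ⊆ U`; as
`y ∉ U`, `y ∉ R`, so `y ∈ S`.
Case 2: `J ∩ U = ∅`, and `y ∉ S`, so `y ∈ R`. `R' = R \ (U ∪ N(U))`: `J \ R' ⊆ S ∪ N(U)`, so `R'` meets
`J`. If `|N(U) ∩ R| ≤ |S ∩ U|` then by `cut_card` `|N(R')| ≤ |N(R)|`, so `R'` is in the family by (DI), but
`|R'| < |R|` (`y ∈ R ∩ N(U)`), contradiction. So `|S ∩ U| + 1 ≤ |N(U) ∩ R|` and by `Car.cut` `b0 ∈ S`.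
For `b ∈ B ∩ S` let `U_b` be a tight set at `b` disjoint from `J` of maximal cardinality (if there is any).
Then `U ⊆ U_{b0}` (`Car.tight_union`), `y ∉ U_{b0}` (it is disjoint from `J`), so `y ∈ N(U_{b0})`.
Hence `|X| ≤ |S| + |S| k ≤ k^2 - 1`. -/
theorem inside_J {k : ℕ} {H B M J : Finset V} (h : Car G k H B M) (hJM : J ⊆ M)
    (hJB : Disjoint J B) (hJc : 2 * k ≤ J.card)
    (hJ : ∀ U ⊆ J, U.Nonempty → (J \ (U ∪ nbL G J U)).Nonempty → k + 1 ≤ (nbL G J U).card)
    (hy : ∃ y ∈ J, ¬ Car G k H (insert y B) M)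
    {X : Finset V} (hX : X ⊆ J) (hcrit : ∀ y ∈ X, ¬ Car G k H B (M.erase y)) :
    X.card + 1 ≤ k ^ 2 := by
  classical
  have hDI : ∀ A : Finset V, (nbL G M A).card ≤ k → Disjoint A J ∨ J ⊆ A ∪ nbL G M A :=
    fun A hA => inside_DI G hJM hJ hA
  -- the family
  obtain ⟨R, ⟨hR, hRJ⟩, hmin⟩ : ∃ R, (Reg G k H M R ∧ J ⊆ R ∪ nbL G M R) ∧
      ∀ R', Reg G k H M R' → J ⊆ R' ∪ nbL G M R' → (nbL G M R').card ≤ (nbL G M R).card →
        R.card ≤ R'.card := by
    obtain ⟨y, hyJ, hyn⟩ := hy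
    obtain ⟨R0, hR0, hyR0⟩ := h.region G (hJM hyJ) hyn
    have hR0J : J ⊆ R0 ∪ nbL G M R0 := by
      rcases hDI R0 hR0.card.le with h1 | h1
      · exact absurd hyJ (disjoint_left.1 h1 hyR0)
      · exact h1
    obtain ⟨R, hRm, hmin⟩ := exists_min_image
      (univ.filter fun U : Finset V => Reg G k H M U ∧ J ⊆ U ∪ nbL G M U)
      (fun U => (nbL G M U).card * (Fintype.card V + 1) + U.card)
      ⟨R0, by simpa using ⟨hR0, hR0J⟩⟩
    simp only [mem_filter, mem_univ, true_and] at hRm hmin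
    refine ⟨R, hRm, ?_⟩
    intro R' h1 h2 h3
    have h4 := hmin R' ⟨h1, h2⟩
    have h5 : (nbL G M R').card * (Fintype.card V + 1) ≤
        (nbL G M R).card * (Fintype.card V + 1) := Nat.mul_le_mul_right _ h3
    omega
  have hSk : (nbL G M R).card < k := hR.card
  -- membership in the family
  have hfam : ∀ A ⊆ R, (nbL G M A).card ≤ (nbL G M R).card → (∃ j ∈ J, j ∈ A) →
      R ⊆ A := by
    intro A hA hc hj
    obtain ⟨j, hjJ, hjA⟩ := hj
    have hreg : Reg G k H M A :=
      ⟨hA.trans hR.sub, disjoint_of_subset_left hA hR.dis, lt_of_le_of_lt hc hR.card⟩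
    have hJA : J ⊆ A ∪ nbL G M A := by
      rcases hDI A (by omega) with h1 | h1
      · exact absurd hjJ (disjoint_left.1 h1 hjA)
      · exact h1
    have h1 := hmin A hreg hJA hc
    exact (eq_of_subset_of_card_le hA h1).symm.subset
  choose! Z hZ using fun b (hb : b ∈ B) => inside_choice G (J := J) h hJM hb
  have hcover : X ⊆ nbL G M R ∪ (nbL G M R ∩ B).biUnion Z := by
    intro y hyX
    have hyJ := hX hyX
    have hyM := hJM hyJ
    have hyB : y ∉ B := disjoint_left.1 hJB hyJ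
    obtain ⟨b0, hb0, U, hU, hyU⟩ := h.tight G hyM hyB (hcrit y hyX)
    by_cases hyS : y ∈ nbL G M R
    · exact mem_union_left _ hyS
    have hyR : y ∈ R := by
      rcases mem_union.1 (hRJ hyJ) with h1 | h1
      · exact h1
      · exact absurd h1 hyS
    have hyU' : y ∉ U := (mem_nbL G).1 hyU |>.2.1
    have hbig : ∀ A : Finset V, J \ A ⊆ nbL G M R ∪ nbL G M U → ∃ j ∈ J, j ∈ A := by
      intro A hA
      by_contra hcon
      push Not at hcon
      have h1 : J ⊆ nbL G M R ∪ nbL G M U := fun j hj => hA (mem_sdiff.2 ⟨hj, hcon j hj⟩)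
      have h2 := card_le_card h1
      have h3 := card_union_le (nbL G M R) (nbL G M U)
      have h4 := hU.card
      omega
    rcases hDI U hU.card.le with hUJ | hUJ
    · -- Case 2
      refine mem_union_right _ ?_
      have hR'J : ∃ j ∈ J, j ∈ R \ (U ∪ nbL G M U) := by
        apply hbig
        intro j hj
        rw [mem_sdiff] at hj
        rcases mem_union.1 (hRJ hj.1) with h1 | h1
        · by_contra hcon
          rw [mem_union, not_or] at hcon
          exact hj.2 (mem_sdiff.2 ⟨h1, fun h2 => by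
            rcases mem_union.1 h2 with h3 | h3
            · exact disjoint_left.1 hUJ h3 hj.1
            · exact hcon.2 h3⟩)
        · exact mem_union_left _ h1
      have hlt : (nbL G M R ∩ U).card + 1 ≤ (nbL G M U ∩ R).card := by
        by_contra hcon
        have hcut := cut_card G (M := M) (U := U) hR.sub
        have h1 := hfam _ sdiff_subset (by omega) hR'J hyR
        rw [mem_sdiff, mem_union, not_or] at h1
        exact h1.2.2 hyU
      have hb0S := h.cut G hR hb0 hU hlt b0 hb0 hU.mem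
      exact mem_biUnion.2 ⟨b0, mem_inter.2 ⟨hb0S, hb0⟩, (hZ b0 hb0).2 U hU hUJ y hyJ hyU⟩
    · -- Case 1
      exfalso
      have hR'J : ∃ j ∈ J, j ∈ R ∩ U := by
        apply hbig
        intro j hj
        rw [mem_sdiff, mem_inter, not_and] at hj
        rcases mem_union.1 (hRJ hj.1) with h1 | h1
        · rcases mem_union.1 (hUJ hj.1) with h2 | h2
          · exact absurd h2 (hj.2 h1)
          · exact mem_union_right _ h2
        · exact mem_union_left _ h1
      have h1 := hfam _ inter_subset_left (h.inter_le G hR hb0 hU) hR'J hyR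
      exact hyU' (mem_inter.1 h1).2
  have h1 := card_le_card hcover
  have h2 := card_union_le (nbL G M R) ((nbL G M R ∩ B).biUnion Z)
  have h3 : ((nbL G M R ∩ B).biUnion Z).card ≤ (nbL G M R ∩ B).card * k :=
    card_biUnion_le_card_mul _ _ _ fun b hb => (hZ b (mem_inter.1 hb).2).1
  have h4 : (nbL G M R ∩ B).card ≤ (nbL G M R).card := card_le_card inter_subset_left
  have h5 : (nbL G M R ∩ B).card * k ≤ (nbL G M R).card * k := Nat.mul_le_mul_right _ h4
  obtain ⟨q, rfl⟩ : ∃ q, k = q + 1 := ⟨k - 1, by omega⟩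
  have h6 : (nbL G M R).card ≤ q := by omega
  have h7 : (nbL G M R).card * (q + 1) ≤ q * (q + 1) := Nat.mul_le_mul_right _ h6
  nlinarith

end

end Pool.Agent.Lib_MP_f6e057_co.AC
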