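import Pool.Agent.Lib_MP_f6e057_co.AC.AttachOne
import Pool.Agent.Lib_MP_f6e057_co.AC.AttachTwo
import Pool.Agent.Lib_MP_f6e057_co.AC.Mader

/-!
# Every vertex outside the copy and the carrier has few neighbours in the carrier
-/

set_option autoImplicit false
set_option linter.unusedSectionVars false

namespace Pool.Agent.Lib_MP_f6e057_co.AC

open Finset

section
variable {V : Type*} [Fintype V] [DecidableEq V] (G : SimpleGraph V) [DecidableRel G.Adj]

/-- **Proof.** Suppose `D = dg G L u ≥ 3 k^2 + 4 k + 1`. `M = insert u L`. Let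
`NC = {y ∈ M | y ∉ B ∧ Car G k H B (M.erase y)}` (classical filter); `u ∈ NC` since `M.erase u = L`.
For `y ∈ NC`, `(g, H, B, M.erase y)` is valid with `|M.erase y| = |L|`, so `h.maxE` and `tE_erase` (for `M`
at `y` and at `u`; `dg G M u = dg G L u`) give `D ≤ dg G M y`. No `(H, insert y B, M)` with `y ∈ M \ B` is a
carrier (`h.maxB`). By `outside_NC`, `y ∈ NC` has at most `k^2 - 1` neighbours in `M \ NC`; so
`dg G NC y ≥ D - (k^2 - 1) ≥ 2 (k+1)^2`. `mader` with `R = NC`, `q = k + 1`, `g = (k+1)^2` gives `J`. Pick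
`x ∈ J`, `M' = M.erase x` (a carrier, `x ∈ NC`), `J' = J.erase x`, `|J'| ≥ (k+1)^2 + 1`. For `U ⊆ J'`:
`nbL G J U ⊆ insert x (nbL G J' U)`, so `hJ` of `inside_J` holds for `J'`. For `y ∈ J'`,
`(H, insert y B, M')` is no carrier by `h.maxB`. By `inside_J` with `X = J'` not all `y ∈ J'` are critical in
`M'`: some `y ∈ J'` has `Car G k H B (M'.erase y)`; `(g, H, B, M'.erase y)` is valid and
`|M'.erase y| = |L| - 1`, contradicting `h.minL`. -/
theorem attach {W : Type*} {T : SimpleGraph W} {k : ℕ} (hk : 1 ≤ k) {g : W → V}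
    {H B L : Finset V} (h : Opt G T k g H B L) {u : V} (hu : u ∉ L) (hug : ∀ x, g x ≠ u) :
    dg G L u ≤ 3 * k ^ 2 + 4 * k := by
  classical
  by_contra hD
  push Not at hD
  have hcar := h.val.car
  set M : Finset V := insert u L with hM
  have huM : u ∈ M := mem_insert_self _ _
  have hMu : M.erase u = L := erase_insert hu
  have hMc : M.card = L.card + 1 := card_insert_of_notMem hu
  have hout : ∀ x, g x ∉ M := by
    intro x hx
    rcases mem_insert.1 hx with h1 | h1
    · exact hug x h1
    · exact h.val.out x h1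
  have hcarM : Car G k H B M := hcar.mono G (subset_insert _ _)
  have hnoB : ∀ M' ⊆ M, ∀ y, y ∉ B → ¬ Car G k H (insert y B) M' := by
    intro M' hM' y hyB hc
    have h1 := h.maxB g H (insert y B) M' ⟨hc, h.val.copy, fun x hx => hout x (hM' hx)⟩
    rw [card_insert_of_notMem hyB] at h1
    omega
  set NC : Finset V := M.filter fun y => y ∉ B ∧ Car G k H B (M.erase y) with hNC
  have hmNC : ∀ y, y ∈ NC ↔ y ∈ M ∧ y ∉ B ∧ Car G k H B (M.erase y) := by
    intro y
    rw [hNC, mem_filter]
  have huNC : u ∈ NC := by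
    rw [hmNC, hMu]
    exact ⟨huM, fun hb => hu (hcar.BL hb), hcar⟩
  have hdu : dg G M u = dg G L u := by
    unfold dg
    congr 1
    ext w
    simp only [mem_filter, hM, mem_insert]
    constructor
    · rintro ⟨rfl | h1, h2⟩
      · exact absurd h2 (G.loopless.irrefl _)
      · exact ⟨h1, h2⟩
    · rintro ⟨h1, h2⟩
      exact ⟨Or.inr h1, h2⟩
  have hdM : ∀ y ∈ NC, dg G L u ≤ dg G M y := by
    intro y hy
    rw [hmNC] at hy
    have hval : Valid G T k g H B (M.erase y) :=
      ⟨hy.2.2, h.val.copy, fun x hx => hout x (mem_of_mem_erase hx)⟩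
    have hc : (M.erase y).card = L.card := by
      rw [card_erase_of_mem hy.1, hMc]
      rfl
    have h1 := h.maxE g H B (M.erase y) hval rfl hc
    have h2 := tE_erase G hy.1
    have h3 := tE_erase G huM
    rw [hMu] at h3
    omega
  have hdNC : ∀ y ∈ NC, 2 * (k + 1) ^ 2 ≤ dg G NC y := by
    intro y hy
    have hy' := (hmNC y).1 hy
    have h1 := hdM y hy
    have h2 : M = NC ∪ (M \ NC) := by
      rw [union_sdiff_of_subset]
      exact filter_subset _ _
    have h3 : dg G M y ≤ dg G NC y + dg G (M \ NC) y := by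
      conv_lhs => rw [h2]
      exact dg_union_le G _ _ _
    have h4 : dg G (M \ NC) y + 1 ≤ k ^ 2 := by
      unfold dg
      refine outside_NC G hcarM hy'.1 hy'.2.1 hy'.2.2 (hnoB M (Subset.refl _) y hy'.2.1) ?_ ?_ ?_
      · intro z hz
        exact (mem_sdiff.1 (mem_filter.1 hz).1).1
      · intro z hz
        exact (mem_filter.1 hz).2
      · intro z hz
        have hz' := mem_sdiff.1 (mem_filter.1 hz).1
        by_contra hcon
        push Not at hcon
        exact hz'.2 ((hmNC z).2 ⟨hz'.1, hcon.1, hcon.2⟩)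
    nlinarith
  obtain ⟨J, hJN, hJne, hJd, hJs⟩ := mader G ⟨u, huNC⟩ (q := k + 1) (g := (k + 1) ^ 2)
    (by omega) (by nlinarith) hdNC
  obtain ⟨x, hx⟩ := hJne
  have hxN := (hmNC x).1 (hJN hx)
  have hJc := dg_lt_card G hx
  have hJd' := hJd x hx
  have hJ'c : (J.erase x).card + 1 = J.card := card_erase_add_one hx
  have hM'c : (M.erase x).card = L.card := by
    rw [card_erase_of_mem hxN.1, hMc]
    rfl
  have hJM : J.erase x ⊆ M.erase x := by
    intro z hz
    rw [mem_erase] at hz ⊢
    exact ⟨hz.1, ((hmNC z).1 (hJN hz.2)).1⟩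
  have hJB : Disjoint (J.erase x) B := by
    rw [disjoint_left]
    intro z hz
    exact ((hmNC z).1 (hJN (mem_of_mem_erase hz))).2.1
  have hall : ¬ ∀ y ∈ J.erase x, ¬ Car G k H B ((M.erase x).erase y) := by
    intro hcon
    have h1 := inside_J G hxN.2.2 hJM hJB (by nlinarith) ?_ ?_ (Subset.refl _) hcon
    · nlinarith
    · intro U hU hUne hX
      have hsub : nbL G J U ⊆ insert x (nbL G (J.erase x) U) := by
        intro v hv
        rw [mem_nbL] at hv
        by_cases hvx : v = x
        · exact mem_insert.2 (Or.inl hvx)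
        · exact mem_insert_of_mem ((mem_nbL G).2 ⟨mem_erase.2 ⟨hvx, hv.1⟩, hv.2⟩)
      have h2 : (J \ (U ∪ nbL G J U)).Nonempty := by
        obtain ⟨z, hz⟩ := hX
        rw [mem_sdiff, mem_union, not_or, mem_erase] at hz
        refine ⟨z, ?_⟩
        rw [mem_sdiff, mem_union, not_or]
        refine ⟨hz.1.2, hz.2.1, fun h3 => ?_⟩
        rcases mem_insert.1 (hsub h3) with h4 | h4
        · exact hz.1.1 h4
        · exact hz.2.2 h4
      have h3 := hJs U (hU.trans (erase_subset _ _)) hUne h2
      have h4 := (card_le_card hsub).trans (card_insert_le _ _)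
      omega
    · have h2 : (J.erase x).Nonempty := by
        rw [← card_pos]
        nlinarith
      obtain ⟨y, hy⟩ := h2
      exact ⟨y, hy, hnoB _ (erase_subset _ _) y (disjoint_left.1 hJB hy)⟩
  push Not at hall
  obtain ⟨y, hy, hyc⟩ := hall
  have h1 := h.minL g H B _ ⟨hyc, h.val.copy, fun z hz =>
    hout z (mem_of_mem_erase (mem_of_mem_erase hz))⟩ rfl
  have h2 : ((M.erase x).erase y).card + 1 = (M.erase x).card := card_erase_add_one (hJM hy)
  omega

end

end Pool.Agent.Lib_MP_f6e057_co.AC
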