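import Pool.Agent.Lib_MP_f6e057_co.AC.Car

/-!
# A noncritical vertex has fewer than k^2 critical neighbours
-/

set_option autoImplicit false
set_option linter.unusedSectionVars false

namespace Pool.Agent.Lib_MP_f6e057_co.AC

open Finset

section
variable {V : Type*} [Fintype V] [DecidableEq V] (G : SimpleGraph V) [DecidableRel G.Adj]

/-- **Proof.** By `Car.region` there is a region containing `y`; choose a region `R ∋ y` (that is
`Reg G k H M R ∧ y ∈ R`) such that `(|N(R)|, |R|)` is lexicographically minimal, where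
`N = nbL G M`. Put `S = N(R)`, `|S| ≤ k - 1`. Every `z ∈ X` is in `R` or in `S` (neighbour of
`y ∈ R`). Let `z ∈ X ∩ R`. By `Car.reg_disj`, `z ∉ B`, so `M.erase z` is not a carrier, and `Car.tight` gives a
tight `U` at some `b0 ∈ B` with `z ∈ N(U)`.
* `y ∉ U`: otherwise `R ∩ U ∋ y` is a region with `|N(R ∩ U)| ≤ |N(R)|` (`Car.inter_le`), and
  `R ∩ U` is smaller than `R` because `z ∈ R`, `z ∉ U`. Contradiction to the choice of `R`.
* `y ∉ N(U)` by `Car.tight_not_nb` (`hyc`).
* `R' = R \ (U ∪ N(U))` contains `y` and not `z`, and is disjoint from `H`; so by the choice of `R`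
  `|N(R')| > |N(R)|`; with `cut_card`: `|S ∩ U| + 1 ≤ |N(U) ∩ R|`. By `Car.cut` with `c = b0`:
  `b0 ∈ S`.
* For every `b ∈ B ∩ S` for which there is a tight set at `b` avoiding `y`, let `U_b` be one of maximal
  cardinality (otherwise `U_b = ∅`). Then `U ⊆ U_{b0}` (`Car.tight_union`), `z ∉ U_{b0}` since otherwise
  `y` (adjacent to `z`, not in `U_{b0}`) is in `N(U_{b0})`, contradicting `Car.tight_not_nb`; so
  `z ∈ N(U_{b0})`, a set with `k` elements.
Hence `|X| ≤ |S| + |S| k ≤ (k - 1)(k + 1) = k^2 - 1`. -/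
theorem outside_NC {k : ℕ} {H B M : Finset V} {y : V} (h : Car G k H B M) (hyM : y ∈ M)
    (hyB : y ∉ B) (hyc : Car G k H B (M.erase y)) (hyr : ¬ Car G k H (insert y B) M)
    {X : Finset V} (hX : X ⊆ M) (hadj : ∀ z ∈ X, G.Adj y z)
    (hcrit : ∀ z ∈ X, z ∈ B ∨ ¬ Car G k H B (M.erase z)) : X.card + 1 ≤ k ^ 2 := by
  classical
  -- a lexicographically minimal region
  obtain ⟨R, hR, hyR, hmin⟩ : ∃ R, Reg G k H M R ∧ y ∈ R ∧ ∀ R', Reg G k H M R' → y ∈ R' →
      (nbL G M R).card * (Fintype.card V + 1) + R.card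
        ≤ (nbL G M R').card * (Fintype.card V + 1) + R'.card := by
    obtain ⟨R0, hR0, hy0⟩ := h.region G hyM hyr
    obtain ⟨R, hRm, hRmin⟩ := Finset.exists_min_image
      (Finset.univ.filter fun R => Reg G k H M R ∧ y ∈ R)
      (fun R => (nbL G M R).card * (Fintype.card V + 1) + R.card)
      ⟨R0, by simp [hR0, hy0]⟩
    simp only [Finset.mem_filter, Finset.mem_univ, true_and] at hRm hRmin
    exact ⟨R, hRm.1, hRm.2, fun R' h1 h2 => hRmin R' ⟨h1, h2⟩⟩
  -- strictly smaller sets are not better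
  have hmin' : ∀ R', R' ⊆ R → y ∈ R' → R'.card < R.card →
      (nbL G M R).card < (nbL G M R').card := by
    intro R' hsub hy' hlt
    by_contra hcon
    push Not at hcon
    have hreg : Reg G k H M R' :=
      ⟨hsub.trans hR.sub, Finset.disjoint_of_subset_left hsub hR.dis, lt_of_le_of_lt hcon hR.card⟩
    have h1 := hmin R' hreg hy'
    have h2 : (nbL G M R').card * (Fintype.card V + 1)
        ≤ (nbL G M R).card * (Fintype.card V + 1) := Nat.mul_le_mul_right _ hcon
    omega
  -- maximal tight sets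
  have hUb : ∀ b : V, ∃ Ub : Finset V, (nbL G M Ub).card ≤ k ∧
      ∀ U, Tight G k H M b U → y ∉ U → b ∈ B →
        (Tight G k H M b Ub ∧ y ∉ Ub ∧ U ⊆ Ub) := by
    intro b
    by_cases hb : ∃ U, Tight G k H M b U ∧ y ∉ U
    · obtain ⟨U0, hU0, hy0⟩ := hb
      obtain ⟨Ub, hUbm, hUbmax⟩ := Finset.exists_max_image
        (Finset.univ.filter fun U => Tight G k H M b U ∧ y ∉ U)
        (fun U => U.card) ⟨U0, by simp [hU0, hy0]⟩
      simp only [Finset.mem_filter, Finset.mem_univ, true_and] at hUbm hUbmax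
      refine ⟨Ub, le_of_eq hUbm.1.card, ?_⟩
      intro U hU hyU hbB
      refine ⟨hUbm.1, hUbm.2, ?_⟩
      have ht := h.tight_union G hbB hU hUbm.1
      have hyu : y ∉ U ∪ Ub := by
        simp only [Finset.mem_union, not_or]
        exact ⟨hyU, hUbm.2⟩
      have hc := hUbmax (U ∪ Ub) ⟨ht, hyu⟩
      have heq : Ub = U ∪ Ub := Finset.eq_of_subset_of_card_le Finset.subset_union_right hc
      rw [heq]
      exact Finset.subset_union_left
    · refine ⟨∅, by simp [nbL], ?_⟩
      intro U hU hyU _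
      exact absurd ⟨U, hU, hyU⟩ hb
  choose Ub hUbk hUbm using hUb
  have hcover : X ⊆ nbL G M R ∪ (nbL G M R).biUnion fun b => nbL G M (Ub b) := by
    intro z hz
    have hyz := hadj z hz
    have hzM := hX hz
    by_cases hzR : z ∈ R
    · rw [Finset.mem_union]
      right
      have hzB : z ∉ B := Finset.disjoint_left.mp (h.reg_disj G hR) hzR
      have hzc : ¬ Car G k H B (M.erase z) := by
        rcases hcrit z hz with hh | hh
        · exact absurd hh hzB
        · exact hh
      obtain ⟨b0, hb0, U, hU, hzU⟩ := h.tight G hzM hzB hzc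
      have hzU' := (mem_nbL G).mp hzU
      have hyU : y ∉ U := by
        intro hyU
        have h1 := h.inter_le G hR hb0 hU
        have h2 := hmin' (R ∩ U) Finset.inter_subset_left (Finset.mem_inter.mpr ⟨hyR, hyU⟩)
          (Finset.card_lt_card (by
            refine ⟨Finset.inter_subset_left, fun hh => ?_⟩
            exact hzU'.2.1 (Finset.mem_inter.mp (hh hzR)).2))
        omega
      have hyN : y ∉ nbL G M U := hyc.tight_not_nb G hb0 hU hyU
      have hR' := hmin' (R \ (U ∪ nbL G M U)) Finset.sdiff_subset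
        (by
          rw [Finset.mem_sdiff, Finset.mem_union]
          exact ⟨hyR, fun hh => hh.elim hyU hyN⟩)
        (Finset.card_lt_card (by
          refine ⟨Finset.sdiff_subset, fun hh => ?_⟩
          exact (Finset.mem_sdiff.mp (hh hzR)).2 (Finset.mem_union_right _ hzU)))
      have hcc := cut_card G (M := M) (U := U) hR.sub
      have hbS : b0 ∈ nbL G M R := h.cut G hR hb0 hU (by omega) b0 hb0 hU.mem
      obtain ⟨ht, hyUb, hsub⟩ := hUbm b0 U hU hyU hb0
      rw [Finset.mem_biUnion]
      refine ⟨b0, hbS, ?_⟩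
      rw [mem_nbL]
      refine ⟨hzM, ?_, ?_⟩
      · intro hzUb
        apply hyc.tight_not_nb G hb0 ht hyUb
        rw [mem_nbL]
        exact ⟨hyM, hyUb, z, hzUb, hyz.symm⟩
      · obtain ⟨u, hu, huz⟩ := hzU'.2.2
        exact ⟨u, hsub hu, huz⟩
    · rw [Finset.mem_union]
      left
      rw [mem_nbL]
      exact ⟨hzM, hzR, y, hyR, hyz⟩
  have hS := hR.card
  have hc1 : X.card ≤ (nbL G M R).card + (nbL G M R).card * k := by
    refine (Finset.card_le_card hcover).trans ((Finset.card_union_le _ _).trans ?_)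
    refine Nat.add_le_add_left ?_ _
    refine Finset.card_biUnion_le.trans ?_
    refine (Finset.sum_le_sum fun b _ => hUbk b).trans ?_
    simp
  obtain ⟨j, rfl⟩ : ∃ j, k = j + 1 := ⟨k - 1, by omega⟩
  have hc2 : (nbL G M R).card ≤ j := by omega
  have hc3 : (nbL G M R).card * (j + 1) ≤ j * (j + 1) := Nat.mul_le_mul_right _ hc2
  nlinarith

end

end Pool.Agent.Lib_MP_f6e057_co.AC
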