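import Pool.Agent.Lib_MP_f6e057_co.AC.NB
import Pool.Agent.Lib_MP_f6e057_co.Basic

/-!
# Carriers, tight sets and regions
-/

set_option autoImplicit false
set_option linter.unusedSectionVars false

namespace Pool.Agent.Lib_MP_f6e057_co.AC

open Finset

section
variable {V : Type*} [Fintype V] [DecidableEq V] (G : SimpleGraph V) [DecidableRel G.Adj]

variable {k : ℕ} {H B L M : Finset V} {y b : V} {U U' R : Finset V}

/-- Proof: for `U ⊆ L'` use `U ∩ L`; `N_L(U ∩ L) ⊆ N_{L'}(U)`, and `B ⊆ L`. -/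
theorem Car.mono {L' : Finset V} (h : Car G k H B L) (hL : L ⊆ L') : Car G k H B L' := by
  refine ⟨h.HB, h.BL.trans hL, h.big, h.core, ?_⟩
  intro U _ hUH hUB
  have h1 : k ≤ (nbL G L (U ∩ L)).card := by
    apply h.link (U ∩ L) inter_subset_right
    · exact disjoint_of_subset_left inter_subset_left hUH
    · intro hd
      apply hUB
      rw [disjoint_left] at hd ⊢
      intro a haU haB
      exact hd (mem_inter.mpr ⟨haU, h.BL haB⟩) haB
  refine h1.trans (card_le_card ?_)
  intro v hv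
  rw [mem_nbL] at hv ⊢
  obtain ⟨hvL, hvU, u, hu, ha⟩ := hv
  exact ⟨hL hvL, fun hh => hvU (mem_inter.mpr ⟨hh, hvL⟩), u, (mem_inter.mp hu).1, ha⟩

/-- Proof: the link property fails in `M.erase y` for some `U`; `N_M(U)` is contained in
`insert y (N_{M - y}(U))` and has at least `k` elements. -/
theorem Car.tight (h : Car G k H B M) (hyM : y ∈ M) (hyB : y ∉ B)
    (hn : ¬ Car G k H B (M.erase y)) :
    ∃ b ∈ B, ∃ U, Tight G k H M b U ∧ y ∈ nbL G M U := by
  by_contra hcon
  push Not at hcon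
  apply hn
  refine ⟨h.HB, fun a ha => mem_erase.mpr ⟨fun hh => hyB (hh ▸ ha), h.BL ha⟩, h.big, h.core, ?_⟩
  intro U hU hUH hUB
  by_contra hlt
  push Not at hlt
  have hUM : U ⊆ M := hU.trans (erase_subset _ _)
  have h1 := h.link U hUM hUH hUB
  have h2 : nbL G M U ⊆ insert y (nbL G (M.erase y) U) := by
    intro v hv
    rw [mem_nbL] at hv
    rw [mem_insert, mem_nbL, mem_erase]
    by_cases hvy : v = y
    · exact Or.inl hvy
    · exact Or.inr ⟨⟨hvy, hv.1⟩, hv.2⟩
  have h3 := card_le_card h2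
  have h4 := card_insert_le y (nbL G (M.erase y) U)
  obtain ⟨b, hbU, hbB⟩ := not_disjoint_iff.mp hUB
  have hT : Tight G k H M b U := ⟨hUM, hUH, hbU, by omega⟩
  apply hcon b hbB U hT
  by_contra hy
  have h5 : nbL G M U ⊆ nbL G (M.erase y) U := by
    intro v hv
    have hv' := hv
    rw [mem_nbL] at hv ⊢
    exact ⟨mem_erase.mpr ⟨fun hh => hy (hh ▸ hv'), hv.1⟩, hv.2⟩
  have h6 := card_le_card h5
  omega

/-- Proof: the link property of `(H, insert y B, M)` fails for some `U`; `U` is disjoint from `B`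
by the link property of `(H, B, M)`, so `y ∈ U`. -/
theorem Car.region (h : Car G k H B M) (hyM : y ∈ M) (hn : ¬ Car G k H (insert y B) M) :
    ∃ R, Reg G k H M R ∧ y ∈ R := by
  by_contra hcon
  push Not at hcon
  apply hn
  refine ⟨h.HB.trans (subset_insert _ _), insert_subset hyM h.BL, h.big, h.core, ?_⟩
  intro U hU hUH hUB
  by_contra hlt
  push Not at hlt
  have hyU := hcon U ⟨hU, hUH, hlt⟩
  have hUB' : ¬ Disjoint U B := by
    intro hd
    apply hUB
    rw [disjoint_left] at hd ⊢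
    intro a haU haB
    rcases mem_insert.mp haB with rfl | haB
    · exact hyU haU
    · exact hd haU haB
  have := h.link U hU hUH hUB'
  omega

theorem Car.reg_disj (h : Car G k H B M) (hR : Reg G k H M R) : Disjoint R B := by
  by_contra hd
  have h1 := h.link R hR.sub hR.dis hd
  have h2 := hR.card
  omega

/-- Proof: submodularity; intersection and union contain `b` and avoid `H`. -/
theorem Car.tight_union (h : Car G k H B M) (hb : b ∈ B) (h1 : Tight G k H M b U)
    (h2 : Tight G k H M b U') : Tight G k H M b (U ∪ U') := by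
  have hs := nbL_submod G M U U'
  have ha : k ≤ (nbL G M (U ∩ U')).card :=
    h.link _ (inter_subset_left.trans h1.sub) (disjoint_of_subset_left inter_subset_left h1.dis)
      (not_disjoint_iff.mpr ⟨b, mem_inter.mpr ⟨h1.mem, h2.mem⟩, hb⟩)
  have hsub : U ∪ U' ⊆ M := union_subset h1.sub h2.sub
  have hdis : Disjoint (U ∪ U') H := disjoint_union_left.mpr ⟨h1.dis, h2.dis⟩
  have hc : k ≤ (nbL G M (U ∪ U')).card :=
    h.link _ hsub hdis (not_disjoint_iff.mpr ⟨b, mem_union_left _ h1.mem, hb⟩)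
  have h3 := h1.card
  have h4 := h2.card
  exact ⟨hsub, hdis, mem_union_left _ h1.mem, by omega⟩

/-- Proof: `U ⊆ M.erase y`, so `k ≤ |N_{M - y}(U)|`; if `y ∈ N_M(U)` then `|N_M(U)| ≥ k + 1`. -/
theorem Car.tight_not_nb (h : Car G k H B (M.erase y)) (hb : b ∈ B) (hU : Tight G k H M b U)
    (hyU : y ∉ U) : y ∉ nbL G M U := by
  intro hy
  have hsub : U ⊆ M.erase y := fun a ha => mem_erase.mpr ⟨fun hh => hyU (hh ▸ ha), hU.sub ha⟩
  have h1 := h.link U hsub hU.dis (not_disjoint_iff.mpr ⟨b, hU.mem, hb⟩)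
  have h2 : insert y (nbL G (M.erase y) U) ⊆ nbL G M U := by
    intro v hv
    rcases mem_insert.mp hv with rfl | hv
    · exact hy
    · rw [mem_nbL] at hv ⊢
      exact ⟨(mem_erase.mp hv.1).2, hv.2⟩
  have h3 := card_le_card h2
  rw [card_insert_of_notMem (by rw [mem_nbL]; simp)] at h3
  have h4 := hU.card
  omega

/-- Proof: submodularity and `|N(R ∪ U)| ≥ k`. -/
theorem Car.inter_le (h : Car G k H B M) (hR : Reg G k H M R) (hb : b ∈ B)
    (hU : Tight G k H M b U) : (nbL G M (R ∩ U)).card ≤ (nbL G M R).card := by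
  have hs := nbL_submod G M R U
  have hc : k ≤ (nbL G M (R ∪ U)).card :=
    h.link _ (union_subset hR.sub hU.sub) (disjoint_union_left.mpr ⟨hR.dis, hU.dis⟩)
      (not_disjoint_iff.mpr ⟨b, mem_union_right _ hU.mem, hb⟩)
  have h4 := hU.card
  omega

/-- Proof: if `c ∉ N(R)`, then `c ∉ R` (`Car.reg_disj`), so `U' = U \ (R ∪ N(R))` contains `c` and
`k ≤ |N(U')|`; but `|N(U')| + |N(U) ∩ R| ≤ |N(U)| + |N(R) ∩ U|` by `cut_card` with exchanged
roles. -/
theorem Car.cut (h : Car G k H B M) (hR : Reg G k H M R) (hb : b ∈ B) (hU : Tight G k H M b U)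
    (hlt : (nbL G M R ∩ U).card + 1 ≤ (nbL G M U ∩ R).card) :
    ∀ c ∈ B, c ∈ U → c ∈ nbL G M R := by
  intro c hc hcU
  by_contra hcN
  have hcR : c ∉ R := fun hh => disjoint_left.mp (h.reg_disj G hR) hh hc
  have h1 := cut_card G (R := U) (U := R) hU.sub
  have h2 : k ≤ (nbL G M (U \ (R ∪ nbL G M R))).card := by
    apply h.link _ (sdiff_subset.trans hU.sub) (disjoint_of_subset_left sdiff_subset hU.dis)
    rw [not_disjoint_iff]
    refine ⟨c, ?_, hc⟩
    rw [mem_sdiff, mem_union]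
    tauto
  have h3 := hU.card
  omega

/-- Proof: let `X = L \ (U ∪ N(U))`. If `U ∩ H = ∅`: link for `U`. If `X ∩ H = ∅`: link for `X`, and
`N(X) ⊆ N(U)`. Otherwise core for `U ∩ H`: `N_H(U ∩ H) ⊆ N_L(U)`, and `X ∩ H` remains. -/
theorem Car.full (h : Car G k H L L) (hU : U ⊆ L) (hne : U.Nonempty)
    (hX : (L \ (U ∪ nbL G L U)).Nonempty) : k ≤ (nbL G L U).card := by
  by_cases hUH : Disjoint U H
  · apply h.link U hU hUH
    obtain ⟨u, hu⟩ := hne
    exact not_disjoint_iff.mpr ⟨u, hu, hU hu⟩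
  by_cases hXH : Disjoint (L \ (U ∪ nbL G L U)) H
  · obtain ⟨x, hx⟩ := hX
    have h1 := h.link _ sdiff_subset hXH
      (not_disjoint_iff.mpr ⟨x, hx, (mem_sdiff.mp hx).1⟩)
    refine h1.trans (card_le_card ?_)
    intro v hv
    rw [mem_nbL] at hv
    obtain ⟨hvL, hvX, w, hw, ha⟩ := hv
    rw [mem_sdiff, mem_union] at hvX hw
    by_contra hvN
    have hvU : v ∈ U := by
      by_contra hvU
      exact hvX ⟨hvL, by tauto⟩
    apply hw.2
    by_cases hwU : w ∈ U
    · exact Or.inl hwU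
    · right
      rw [mem_nbL]
      exact ⟨hw.1, hwU, v, hvU, ha.symm⟩
  · obtain ⟨u, huU, huH⟩ := not_disjoint_iff.mp hUH
    obtain ⟨x, hxX, hxH⟩ := not_disjoint_iff.mp hXH
    rw [mem_sdiff, mem_union, mem_nbL] at hxX
    have h1 := h.core (U ∩ H) inter_subset_right ⟨u, mem_inter.mpr ⟨huU, huH⟩⟩ ?_
    · refine h1.trans (card_le_card ?_)
      intro v hv
      rw [mem_nbL] at hv ⊢
      obtain ⟨hvH, hvU, w, hw, ha⟩ := hv
      exact ⟨h.BL (h.HB hvH), fun hh => hvU (mem_inter.mpr ⟨hh, hvH⟩), w, (mem_inter.mp hw).1, ha⟩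
    · refine ⟨x, ?_⟩
      rw [mem_sdiff, mem_union, mem_nbL]
      refine ⟨hxH, ?_⟩
      rintro (hh | ⟨-, -, w, hw, ha⟩)
      · exact hxX.2 (Or.inl (mem_inter.mp hh).1)
      · apply hxX.2
        by_cases hxU : x ∈ U
        · exact Or.inl hxU
        · exact Or.inr ⟨hxX.1, hxU, w, (mem_inter.mp hw).1, ha⟩

/-- Proof: `kconn_of_noSep` (Basic.lean) with `T := S`. A separation `Sep G k S D1 D2` gives with
`U = D1`, `L = Sᶜ`: `D2` is disjoint from `U ∪ N_L(U)`, and `N_L(U)` is contained in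
`univ \ (D1 ∪ D2 ∪ S)`; contradiction with `Car.full`. -/
theorem kconn_of_car {S : Finset V} (h : Car G k H Sᶜ Sᶜ) :
    KConnected k (G.induce ((S : Set V)ᶜ)) := by
  apply kconn_of_noSep
  · have h1 := card_le_card (h.HB)
    have h2 := h.big
    have h3 := card_add_card_compl S
    omega
  · intro D1 D2 hs
    have hD1 : D1 ⊆ Sᶜ := by
      intro a ha
      rw [mem_compl]
      exact disjoint_left.mp hs.disj1 ha
    have hD2 : ∀ x ∈ D2, x ∉ D1 ∧ x ∉ nbL G Sᶜ D1 := by
      intro x hx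
      refine ⟨fun hh => disjoint_left.mp hs.disj hh hx, ?_⟩
      intro hh
      rw [mem_nbL] at hh
      obtain ⟨-, -, u, hu, ha⟩ := hh
      exact hs.nadj u hu x hx ha
    have h1 := h.full G hD1 hs.ne1 ?_
    · have h2 : nbL G Sᶜ D1 ⊆ univ \ (D1 ∪ D2 ∪ S) := by
        intro v hv
        have hv' := hv
        rw [mem_nbL] at hv
        rw [mem_sdiff, mem_union, mem_union]
        refine ⟨mem_univ _, ?_⟩
        rintro ((hh | hh) | hh)
        · exact hv.2.1 hh
        · exact (hD2 v hh).2 hv'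
        · exact (mem_compl.mp hv.1) hh
      have h3 := card_le_card h2
      have h4 := hs.small
      omega
    · obtain ⟨x, hx⟩ := hs.ne2
      refine ⟨x, ?_⟩
      rw [mem_sdiff, mem_union, mem_compl]
      exact ⟨disjoint_left.mp hs.disj2 hx, by have := hD2 x hx; tauto⟩

end

end Pool.Agent.Lib_MP_f6e057_co.AC
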