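import Pool.Agent.Lib_MP_f6e057_co.AC.NB

/-!
# Counting edges between two paths
-/

set_option autoImplicit false
set_option linter.unusedSectionVars false

namespace Pool.Agent.Lib_MP_f6e057_co.AC

open Finset

section
variable {V : Type*} [Fintype V] [DecidableEq V] (G : SimpleGraph V) [DecidableRel G.Adj]

/-- the number of elements of `p` outside `L` before `v` -/
def ccRk (L : Finset V) (p : List V) (v : V) : ℕ :=
  (p.takeWhile fun x => decide (x ≠ v)).countP fun x => decide (x ∉ L)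

theorem ccRk_eq {L : Finset V} {l1 r : List V} {v : V} (h : v ∉ l1) :
    ccRk L (l1 ++ v :: r) v = l1.countP fun x => decide (x ∉ L) := by
  unfold ccRk
  rw [List.takeWhile_append_of_pos]
  · simp
  · intro a ha
    simp only [decide_eq_true_eq]
    rintro rfl
    exact h ha

theorem cc_split {p : List V} {v v' : V} (hv : v ∈ p) (hv' : v' ∈ p) (hne : v ≠ v') :
    (∃ l1 l2 l3, p = l1 ++ v :: (l2 ++ v' :: l3)) ∨
      (∃ l1 l2 l3, p = l1 ++ v' :: (l2 ++ v :: l3)) := by
  obtain ⟨a, b, rfl⟩ := List.append_of_mem hv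
  rw [List.mem_append, List.mem_cons] at hv'
  rcases hv' with h | h | h
  · obtain ⟨c, d, rfl⟩ := List.append_of_mem h
    right
    exact ⟨c, d, b, by simp⟩
  · exact absurd h.symm hne
  · obtain ⟨c, d, rfl⟩ := List.append_of_mem h
    left
    exact ⟨a, c, d, rfl⟩

theorem ccRk_two {L : Finset V} {p l1 l2 l3 : List V} {v v' : V} (hp : p.Nodup)
    (h : p = l1 ++ v :: (l2 ++ v' :: l3)) (hv : v ∉ L) :
    ccRk L p v' = ccRk L p v + 1 + l2.countP fun x => decide (x ∉ L) := by
  subst h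
  have h0 : l1 ++ v :: (l2 ++ v' :: l3) = (l1 ++ v :: l2) ++ v' :: l3 := by simp
  have h1 : v ∉ l1 := by
    intro h
    exact (List.nodup_append.1 hp).2.2 v h v (by simp) rfl
  have h2 : v' ∉ l1 ++ v :: l2 := by
    intro h
    rw [h0] at hp
    exact (List.nodup_append.1 hp).2.2 v' h v' (by simp) rfl
  rw [ccRk_eq h1, h0, ccRk_eq h2, List.countP_append, List.countP_cons]
  simp only [hv, not_false_eq_true, decide_true, if_true]
  omega

theorem ccRk_lt {L : Finset V} {p : List V} {v : V} (hp : p.Nodup) (hv : v ∈ p) (hL : v ∉ L) :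
    ccRk L p v < (p.toFinset \ L).card := by
  have h1 : (p.toFinset \ L).card = p.countP fun x => decide (x ∉ L) := by
    rw [List.countP_eq_length_filter, ← List.toFinset_card_of_nodup (hp.filter _)]
    congr 1
    ext x
    simp
  obtain ⟨a, b, rfl⟩ := List.append_of_mem hv
  have h2 : v ∉ a := by
    intro h
    exact (List.nodup_append.1 hp).2.2 v h v (by simp) rfl
  rw [h1, ccRk_eq h2, List.countP_append, List.countP_cons]
  simp only [hL, not_false_eq_true, decide_true, if_true]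
  omega

/-- **Proof.** For an edge `v w`, `v ∈ p`, `w ∈ p'` let
`s`, `t` be the ranks. If `(s, t)`, `(s', t')` belong to edges and `s < s'`, `t' < t` then by
`hcr` `s' = s + 1`. So the map
`(v, w) ↦ (s + t, s % 2)` is injective on the edges, with values in
`range (|q| + |q'|) × range 2`. -/
theorem count_cross {p p' : List V} (hp : p.Nodup) (hp' : p'.Nodup) {L : Finset V}
    (hcr : ∀ l1 l2 l3 m1 m2 m3 v v' w w', p = l1 ++ v :: (l2 ++ v' :: l3) →
      p' = m1 ++ w' :: (m2 ++ w :: m3) → G.Adj v w → G.Adj v' w' →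
      (∀ z ∈ l2, z ∈ L) ∧ (∀ z ∈ m2, z ∈ L)) :
    ∑ v ∈ p.toFinset \ L, dg G (p'.toFinset \ L) v
      ≤ 2 * ((p.toFinset \ L).card + (p'.toFinset \ L).card) := by
  classical
  set A := p.toFinset \ L with hA
  set B := p'.toFinset \ L with hB
  have hE : ∑ v ∈ A, dg G B v = ((A ×ˢ B).filter fun x => G.Adj x.1 x.2).card := by
    rw [card_filter, sum_product]
    apply sum_congr rfl
    intro v _
    unfold dg
    rw [card_filter]
  have key : ∀ v ∈ A, ∀ w ∈ B, ∀ v' ∈ A, ∀ w' ∈ B, G.Adj v w → G.Adj v' w' →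
      ccRk L p v + ccRk L p' w = ccRk L p v' + ccRk L p' w' →
      (∃ l1 l2 l3, p = l1 ++ v :: (l2 ++ v' :: l3)) → ccRk L p v' = ccRk L p v + 1 := by
    intro v hv w hw v' hv' w' hw' h1 h2 h3 ⟨l1, l2, l3, h4⟩
    rw [hA, mem_sdiff, List.mem_toFinset] at hv hv'
    rw [hB, mem_sdiff, List.mem_toFinset] at hw hw'
    have h5 := ccRk_two hp h4 hv.2
    have h6 : w' ≠ w := by
      rintro rfl
      omega
    rcases cc_split hw'.1 hw.1 h6 with ⟨m1, m2, m3, h7⟩ | ⟨m1, m2, m3, h7⟩
    · obtain ⟨h8, -⟩ := hcr l1 l2 l3 m1 m2 m3 v v' w w' h4 h7 h1 h2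
      have h9 : l2.countP (fun x => decide (x ∉ L)) = 0 := by
        rw [List.countP_eq_zero]
        intro z hz
        simp [h8 z hz]
      omega
    · have h8 := ccRk_two hp' h7 hw.2
      omega
  rw [hE]
  have hcard : (range (A.card + B.card) ×ˢ range 2).card = 2 * (A.card + B.card) := by
    rw [card_product, card_range, card_range]
    ring
  rw [← hcard]
  apply card_le_card_of_injOn (fun x => (ccRk L p x.1 + ccRk L p' x.2, ccRk L p x.1 % 2))
  · intro x hx
    rw [mem_coe, mem_filter, mem_product] at hx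
    obtain ⟨⟨h1, h2⟩, -⟩ := hx
    rw [hA, mem_sdiff, List.mem_toFinset] at h1
    rw [hB, mem_sdiff, List.mem_toFinset] at h2
    have h3 := ccRk_lt hp h1.1 h1.2
    have h4 := ccRk_lt hp' h2.1 h2.2
    rw [mem_coe, mem_product, mem_range, mem_range]
    exact ⟨by rw [hA, hB]; exact Nat.add_lt_add h3 h4, Nat.mod_lt _ two_pos⟩
  · rintro ⟨v, w⟩ hx ⟨v', w'⟩ hy hxy
    rw [mem_coe, mem_filter, mem_product] at hx hy
    obtain ⟨⟨h1, h2⟩, h3⟩ := hx
    obtain ⟨⟨h4, h5⟩, h6⟩ := hy
    rw [Prod.mk.injEq] at hxy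
    obtain ⟨h7, h8⟩ := hxy
    replace h7 : ccRk L p v + ccRk L p' w = ccRk L p v' + ccRk L p' w' := h7
    replace h8 : ccRk L p v % 2 = ccRk L p v' % 2 := h8
    have m1 : v ∈ p.toFinset ∧ v ∉ L := mem_sdiff.1 h1
    have m2 : w ∈ p'.toFinset ∧ w ∉ L := mem_sdiff.1 h2
    have m4 : v' ∈ p.toFinset ∧ v' ∉ L := mem_sdiff.1 h4
    have m5 : w' ∈ p'.toFinset ∧ w' ∉ L := mem_sdiff.1 h5
    rw [List.mem_toFinset] at m1 m2 m4 m5
    by_cases hvv : v = v'
    · subst hvv
      by_cases hww : w = w'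
      · rw [hww]
      · exfalso
        rcases cc_split m2.1 m5.1 hww with ⟨a, b, c, h9⟩ | ⟨a, b, c, h9⟩
        · have := ccRk_two hp' h9 m2.2
          omega
        · have := ccRk_two hp' h9 m5.2
          omega
    · exfalso
      rcases cc_split m1.1 m4.1 hvv with h9 | h9
      · have := key v h1 w h2 v' h4 w' h5 h3 h6 h7 h9
        omega
      · have := key v' h4 w' h5 v h1 w h2 h6 h3 h7.symm h9
        omega

end

end Pool.Agent.Lib_MP_f6e057_co.AC
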