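import Pool.Agent.Lib_MP_f6e057_co.AC.NB

/-!
# Counting edges inside one path
-/

set_option autoImplicit false
set_option linter.unusedSectionVars false

namespace Pool.Agent.Lib_MP_f6e057_co.AC

open Finset

section
variable {V : Type*} [Fintype V] [DecidableEq V] (G : SimpleGraph V) [DecidableRel G.Adj]

theorem idx_consec {q q1 q3 : List V} {v w : V} (hq : q.Nodup) (h : q = q1 ++ v :: w :: q3) :
    q.idxOf w = q.idxOf v + 1 := by
  subst h
  rw [List.nodup_append] at hq
  obtain ⟨-, h2, h3⟩ := hq
  have hv : v ∉ q1 := fun hh => h3 v hh v (by simp) rfl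
  have hw : w ∉ q1 := fun hh => h3 w hh w (by simp) rfl
  have hvw : v ≠ w := by
    intro hh
    subst hh
    simp at h2
  rw [List.idxOf_append_of_notMem hv, List.idxOf_append_of_notMem hw, List.idxOf_cons_self,
    List.idxOf_cons_ne _ hvw, List.idxOf_cons_self]

/-- **Proof.** Let `q = p.filter (· ∉ L)`, a list without repetition with `q.toFinset = p.toFinset \ L`. By `hch` two
adjacent vertices of `q` are neighbours in the list `q` (their indices differ by one), so every vertex of
`q` has at most 2 neighbours in `q`. -/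
theorem count_same {p : List V} (hp : p.Nodup) {L : Finset V}
    (hch : ∀ l1 l2 l3 v w, p = l1 ++ v :: (l2 ++ w :: l3) → G.Adj v w → ∀ z ∈ l2, z ∈ L) :
    ∑ v ∈ p.toFinset \ L, dg G (p.toFinset \ L) v ≤ 2 * (p.toFinset \ L).card := by
  set q : List V := p.filter fun v => decide (v ∉ L) with hqdef
  have hq : q.Nodup := hp.filter _
  have hmem : ∀ v, v ∈ p.toFinset \ L ↔ v ∈ q := by
    intro v
    rw [mem_sdiff, List.mem_toFinset, hqdef, List.mem_filter, decide_eq_true_iff]
  have hcons : ∀ l1 l2 l3 v w, v ∉ L → w ∉ L → p = l1 ++ v :: (l2 ++ w :: l3) → G.Adj v w →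
      q.idxOf w = q.idxOf v + 1 := by
    intro l1 l2 l3 v w hv hw hpe ha
    have h1 := hch l1 l2 l3 v w hpe ha
    apply idx_consec hq (q1 := l1.filter fun v => decide (v ∉ L))
      (q3 := l3.filter fun v => decide (v ∉ L))
    have h2 : (l2.filter fun v => decide (v ∉ L)) = [] := by
      rw [List.filter_eq_nil_iff]
      intro z hz
      rw [decide_eq_true_iff]
      exact fun hh => hh (h1 z hz)
    rw [hqdef, hpe, List.filter_append, List.filter_cons_of_pos (by simpa using hv),
      List.filter_append, h2, List.filter_cons_of_pos (by simpa using hw), List.nil_append]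
  have hadj : ∀ v w, v ∈ q → w ∈ q → G.Adj v w →
      q.idxOf w = q.idxOf v + 1 ∨ q.idxOf w + 1 = q.idxOf v := by
    intro v w hv hw ha
    rw [← hmem, mem_sdiff, List.mem_toFinset] at hv hw
    obtain ⟨l1, r, hr⟩ := List.append_of_mem hv.1
    have hw1 := hw.1
    rw [hr, List.mem_append, List.mem_cons] at hw1
    rcases hw1 with h | h | h
    · obtain ⟨l0, l2, h2⟩ := List.append_of_mem h
      right
      refine (hcons l0 l2 r w v hw.2 hv.2 ?_ ha.symm).symm
      rw [hr, h2]
      simp
    · exact absurd h ha.ne'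
    · obtain ⟨l2, l3, h2⟩ := List.append_of_mem h
      left
      refine hcons l1 l2 l3 v w hv.2 hw.2 ?_ ha
      rw [hr, h2]
  have hdeg : ∀ v ∈ p.toFinset \ L, dg G (p.toFinset \ L) v ≤ 2 := by
    intro v hv
    have hv' := (hmem v).mp hv
    unfold dg
    have h1 : ((p.toFinset \ L).filter fun w => G.Adj v w).card
        ≤ ({q.idxOf v + 1, q.idxOf v - 1} : Finset ℕ).card := by
      apply card_le_card_of_injOn (fun w => q.idxOf w)
      · intro w hw
        have hw := mem_filter.mp (mem_coe.mp hw)
        have h2 := hadj v w hv' ((hmem w).mp hw.1) hw.2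
        simp only [coe_insert, coe_singleton, Set.mem_insert_iff, Set.mem_singleton_iff]
        omega
      · intro w hw w' hw' he
        have hw := mem_filter.mp (mem_coe.mp hw)
        have hw' := mem_filter.mp (mem_coe.mp hw')
        exact (List.idxOf_inj ((hmem w).mp hw.1)).mp he
    exact h1.trans card_le_two
  calc ∑ v ∈ p.toFinset \ L, dg G (p.toFinset \ L) v
      ≤ ∑ v ∈ p.toFinset \ L, 2 := sum_le_sum hdeg
    _ = 2 * (p.toFinset \ L).card := by rw [sum_const, smul_eq_mul, mul_comm]

end

end Pool.Agent.Lib_MP_f6e057_co.AC
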