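import Pool.Agent.Lib_MP_f6e057_co.Defs
import Pool.Agent.Lib_MP_f6e057_co.Partial

/-!
# Additive constant theorem for Mader's conjecture: definitions
-/

set_option autoImplicit false
set_option linter.unusedSectionVars false

namespace Pool.Agent.Lib_MP_f6e057_co.AC

open Finset

section
variable {V : Type*} [Fintype V] [DecidableEq V] (G : SimpleGraph V) [DecidableRel G.Adj]

/-- the neighbours of `U` in `L`, outside `U` -/
def nbL (L U : Finset V) : Finset V := L.filter fun v => v ∉ U ∧ ∃ u ∈ U, G.Adj u v

/-- the number of neighbours of `v` in `L` -/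
def dg (L : Finset V) (v : V) : ℕ := (L.filter fun w => G.Adj v w).card

/-- twice the number of edges inside `L` -/
def tE (L : Finset V) : ℕ := ∑ v ∈ L, dg G L v

theorem mem_nbL {L U : Finset V} {v : V} :
    v ∈ nbL G L U ↔ v ∈ L ∧ v ∉ U ∧ ∃ u ∈ U, G.Adj u v := by
  simp [nbL]

/-- `B` is `k`-linked in `G[L]` to the core `H`, and the core has no small separator. -/
structure Car (k : ℕ) (H B L : Finset V) : Prop where
  HB : H ⊆ B
  BL : B ⊆ L
  big : k < H.card
  core : ∀ U ⊆ H, U.Nonempty → (H \ (U ∪ nbL G H U)).Nonempty → k ≤ (nbL G H U).card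
  link : ∀ U ⊆ L, Disjoint U H → ¬ Disjoint U B → k ≤ (nbL G L U).card

/-- `U` is a tight set of `G[M]` at `b` -/
structure Tight (k : ℕ) (H M : Finset V) (b : V) (U : Finset V) : Prop where
  sub : U ⊆ M
  dis : Disjoint U H
  mem : b ∈ U
  card : (nbL G M U).card = k

/-- `R` is a region of `G[M]`: it is separated from the core by fewer than `k` vertices -/
structure Reg (k : ℕ) (H M R : Finset V) : Prop where
  sub : R ⊆ M
  dis : Disjoint R H
  card : (nbL G M R).card < k

/-- a copy of `T` outside the carrier `L` -/
structure Valid {W : Type*} (T : SimpleGraph W) (k : ℕ) (g : W → V) (H B L : Finset V) :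
    Prop where
  car : Car G k H B L
  copy : Exch.IsCopy T G g
  out : ∀ x, g x ∉ L

/-- the extremal choice: `|B|` maximal, then `|L|` minimal, then as many edges in `L` as
possible -/
structure Opt {W : Type*} (T : SimpleGraph W) (k : ℕ) (g : W → V) (H B L : Finset V) :
    Prop where
  val : Valid G T k g H B L
  maxB : ∀ (g' : W → V) (H' B' L' : Finset V), Valid G T k g' H' B' L' → B'.card ≤ B.card
  minL : ∀ (g' : W → V) (H' B' L' : Finset V), Valid G T k g' H' B' L' → B'.card = B.card →
    L.card ≤ L'.card
  maxE : ∀ (g' : W → V) (H' B' L' : Finset V), Valid G T k g' H' B' L' → B'.card = B.card →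
    L'.card = L.card → tE G L' ≤ tE G L

/-- the list `p` is a path of `G` inside `R` from `A` to `C` (one vertex is allowed) -/
structure PathL (R A C : Finset V) (p : List V) : Prop where
  chain : p.IsChain G.Adj
  nodup : p.Nodup
  sub : ∀ v ∈ p, v ∈ R
  head : ∃ a ∈ A, p.head? = some a
  last : ∃ c ∈ C, p.getLast? = some c

/-- `n` disjoint paths of `G` inside `R` from `A` to `C` -/
structure Sys {n : ℕ} (R A C : Finset V) (P : Fin n → List V) : Prop where
  path : ∀ i, PathL G R A C (P i)
  disj : ∀ i j, i ≠ j → ∀ v ∈ P i, v ∉ P j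

/-- all vertices on the paths -/
def VP {n : ℕ} (P : Fin n → List V) : Finset V := univ.biUnion fun i => (P i).toFinset

/-- a fan: `k` disjoint paths from the neighbours of `x` to `H` avoiding `x` -/
def Fan {k : ℕ} (H : Finset V) (x : V) (P : Fin k → List V) : Prop :=
  Sys G (univ.erase x) (G.neighborFinset x) H P

/-- a fan with as few vertices outside `L` as possible -/
structure MinFan {k : ℕ} (H L : Finset V) (x : V) (P : Fin k → List V) : Prop where
  fan : Fan G H x P
  min : ∀ P' : Fin k → List V, Fan G H x P' → (VP P \ L).card ≤ (VP P' \ L).card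

end

end Pool.Agent.Lib_MP_f6e057_co.AC
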