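import Pool.Agent.Lib_MP_f6e057_co.AC.Car

/-!
# Adding a fan to a carrier
-/

set_option autoImplicit false
set_option linter.unusedSectionVars false

namespace Pool.Agent.Lib_MP_f6e057_co.AC

open Finset

section
variable {V : Type*} [Fintype V] [DecidableEq V] (G : SimpleGraph V) [DecidableRel G.Adj]

/-- the first vertex of a path outside `U` -/
theorem first_out {U : Finset V} {p : List V} (hc : p.IsChain G.Adj)
    (ha : ∀ a, p.head? = some a → ∃ u ∈ U, G.Adj u a) (hex : ∃ z ∈ p, z ∉ U) :
    ∃ v ∈ p, v ∉ U ∧ ∃ u ∈ U, G.Adj u v := by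
  induction p with
  | nil => obtain ⟨z, hz, -⟩ := hex; simp at hz
  | cons a p ih =>
    by_cases haU : a ∈ U
    · have hex' : ∃ z ∈ p, z ∉ U := by
        obtain ⟨z, hz, hzU⟩ := hex
        rcases List.mem_cons.mp hz with rfl | hz
        · exact absurd haU hzU
        · exact ⟨z, hz, hzU⟩
      have hadj : ∀ b, p.head? = some b → ∃ u ∈ U, G.Adj u b := by
        intro b hb
        refine ⟨a, haU, ?_⟩
        rw [List.isChain_cons] at hc
        exact hc.1 b hb
      have hc' : p.IsChain G.Adj := by
        rw [List.isChain_cons] at hc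
        exact hc.2
      obtain ⟨v, hv, h⟩ := ih hc' hadj hex'
      exact ⟨v, List.mem_cons_of_mem _ hv, h⟩
    · exact ⟨a, by simp, haU, ha a (by simp)⟩

/-- **Proof.** Let `L' = L ∪ insert x (VP P)`, `U ⊆ L'` disjoint from `H` and meeting `insert x B`. If `U`
meets `B`: `Car.mono`. Otherwise `x ∈ U`. Every path `P i` contains a vertex of `nbL G L' U`: its first
vertex is adjacent to `x ∈ U`, its last is in `H`, so not in `U`; the first vertex of `P i` outside `U` is
adjacent to a vertex of `U` (its predecessor, or `x`). The paths are disjoint, so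
`k ≤ |nbL G L' U|`. -/
theorem fan_car {k : ℕ} {H B L : Finset V} {x : V} {P : Fin k → List V} (h : Car G k H B L)
    (hx : x ∉ L) (hP : Fan G H x P) :
    Car G k H (insert x B) (L ∪ insert x (VP P)) := by
  have hm : Car G k H B (L ∪ insert x (VP P)) := h.mono G subset_union_left
  refine ⟨hm.HB.trans (subset_insert _ _),
    insert_subset (mem_union_right _ (mem_insert_self _ _)) hm.BL, h.big, h.core, ?_⟩
  intro U hU hUH hUB
  by_cases hB : Disjoint U B
  · have hxU : x ∈ U := by
      by_contra hxU
      apply hUB
      rw [disjoint_left] at hB ⊢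
      intro a haU haB
      rcases mem_insert.mp haB with rfl | haB
      · exact hxU haU
      · exact hB haU haB
    have key : ∀ i : Fin k, ∃ v ∈ P i, v ∈ nbL G (L ∪ insert x (VP P)) U := by
      intro i
      have hp := hP.path i
      obtain ⟨c, hc, hlast⟩ := hp.last
      obtain ⟨a, ha, hhead⟩ := hp.head
      obtain ⟨v, hv, hvU, hadj⟩ := first_out G (U := U) hp.chain
        (fun b hb => by
          rw [hhead] at hb
          have : a = b := Option.some.inj hb
          subst this
          exact ⟨x, hxU, by simpa using ha⟩)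
        ⟨c, List.mem_of_getLast? hlast, fun hh => disjoint_left.mp hUH hh hc⟩
      refine ⟨v, hv, ?_⟩
      rw [mem_nbL]
      refine ⟨?_, hvU, hadj⟩
      apply mem_union_right
      apply mem_insert_of_mem
      exact mem_biUnion.mpr ⟨i, mem_univ _, List.mem_toFinset.mpr hv⟩
    choose f hf1 hf2 using key
    have hinj : Function.Injective f := by
      intro i j hij
      by_contra hne
      exact hP.disj i j hne (f i) (hf1 i) (hij ▸ hf1 j)
    calc k = (univ.image f).card := by rw [card_image_of_injective _ hinj]; simp
      _ ≤ (nbL G (L ∪ insert x (VP P)) U).card := by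
          apply card_le_card
          intro v hv
          obtain ⟨i, -, rfl⟩ := mem_image.mp hv
          exact hf2 i
  · exact hm.link U hU hUH hB

end

end Pool.Agent.Lib_MP_f6e057_co.AC
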