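import Pool.Agent.Lib_MP_f6e057_co.AC.Defs

/-!
# Chords and crossing edges of a minimal fan
-/

set_option autoImplicit false
set_option linter.unusedSectionVars false

namespace Pool.Agent.Lib_MP_f6e057_co.AC

open Finset

section
variable {V : Type*} [Fintype V] [DecidableEq V] (G : SimpleGraph V) [DecidableRel G.Adj]

/-- splice two paths by an edge -/
theorem PathL.splice {R A C A' C' : Finset V} {l1 r s m : List V} {v w : V}
    (h1 : PathL G R A C (l1 ++ v :: r)) (h2 : PathL G R A' C' (s ++ w :: m))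
    (hvw : G.Adj v w) (hnd : ∀ z ∈ l1 ++ [v], z ∉ w :: m) :
    PathL G R A C' (l1 ++ v :: w :: m) := by
  refine ⟨?_, ?_, ?_, ?_, ?_⟩
  · exact List.isChain_append_cons_cons.2
      ⟨(List.isChain_split.1 h1.chain).1, hvw, (List.isChain_append.1 h2.chain).2.1⟩
  · have e : l1 ++ v :: w :: m = (l1 ++ [v]) ++ (w :: m) := by simp
    have n1 : (l1 ++ [v]).Nodup := by
      have := h1.nodup
      have e2 : l1 ++ v :: r = (l1 ++ [v]) ++ r := by simp
      rw [e2] at this
      exact (List.nodup_append.1 this).1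
    have n2 : (w :: m).Nodup := (List.nodup_append.1 h2.nodup).2.1
    rw [e, List.nodup_append]
    exact ⟨n1, n2, fun a ha b hb hab => hnd a ha (hab ▸ hb)⟩
  · intro z hz
    rw [List.mem_append, List.mem_cons] at hz
    rcases hz with hz | hz | hz
    · exact h1.sub z (List.mem_append_left _ hz)
    · exact h1.sub z (by simp [hz])
    · exact h2.sub z (List.mem_append_right _ hz)
  · obtain ⟨a, ha, h⟩ := h1.head
    refine ⟨a, ha, ?_⟩
    rw [List.head?_append] at h ⊢
    simpa using h
  · obtain ⟨c, hc, h⟩ := h2.last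
    refine ⟨c, hc, ?_⟩
    rw [List.getLast?_append] at h ⊢
    rw [List.getLast?_cons_cons]
    have hne : (w :: m).getLast? ≠ none := by simp
    cases hh : (w :: m).getLast? with
    | none => exact absurd hh hne
    | some b =>
      rw [hh] at h
      simpa using h

/-- a fan using only vertices of a minimal fan may only drop vertices of `L` -/
theorem MinFan.no_drop {k : ℕ} {H L : Finset V} {x : V} {P P' : Fin k → List V}
    (hP : MinFan G H L x P) (hF : Fan G H x P') (hsub : ∀ j, ∀ u ∈ P' j, ∃ i, u ∈ P i)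
    {z : V} {i : Fin k} (hz : z ∈ P i) (hz' : ∀ j, z ∉ P' j) : z ∈ L := by
  by_contra hzL
  have h1 := hP.min P' hF
  have h2 : VP P' \ L ⊂ VP P \ L := by
    rw [ssubset_iff_of_subset]
    · refine ⟨z, ?_, ?_⟩
      · rw [mem_sdiff]
        exact ⟨mem_biUnion.2 ⟨i, mem_univ _, List.mem_toFinset.2 hz⟩, hzL⟩
      · intro h
        obtain ⟨j, -, hj⟩ := mem_biUnion.1 (mem_sdiff.1 h).1
        exact hz' j (List.mem_toFinset.1 hj)
    · apply sdiff_subset_sdiff _ subset_rfl
      intro u hu
      obtain ⟨j, -, hj⟩ := mem_biUnion.1 hu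
      obtain ⟨i', hi'⟩ := hsub j u (List.mem_toFinset.1 hj)
      exact mem_biUnion.2 ⟨i', mem_univ _, List.mem_toFinset.2 hi'⟩
  have h3 := card_lt_card h2
  omega

/-- **Proof.** Replace `P i` by `l1 ++ v :: w :: l3`; the vertices of `l2` are dropped, so by minimality none
of them is outside `L`. -/
theorem fan_chord {k : ℕ} {H L : Finset V} {x : V} {P : Fin k → List V}
    (hP : MinFan G H L x P) {i : Fin k} {l1 l2 l3 : List V} {v w : V}
    (hi : P i = l1 ++ v :: (l2 ++ w :: l3)) (hvw : G.Adj v w) : ∀ z ∈ l2, z ∈ L := by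
  intro z hz
  have hpi := hP.fan.path i
  rw [hi] at hpi
  have e : l1 ++ v :: (l2 ++ w :: l3) = (l1 ++ v :: l2) ++ w :: l3 := by simp
  have hnd := hpi.nodup
  rw [e, List.nodup_append] at hnd
  have hpi2 := hpi
  rw [e] at hpi2
  have hnew : PathL G (univ.erase x) (G.neighborFinset x) H (l1 ++ v :: w :: l3) := by
    refine PathL.splice G hpi hpi2 hvw ?_
    intro a ha hb
    refine hnd.2.2 a ?_ a hb rfl
    rw [List.mem_append, List.mem_singleton] at ha
    rw [List.mem_append, List.mem_cons]
    tauto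
  have hsub' : ∀ u ∈ l1 ++ v :: w :: l3, u ∈ P i := by
    intro u hu
    rw [hi]
    simp only [List.mem_append, List.mem_cons] at hu ⊢
    tauto
  have hsub : ∀ j, ∀ u ∈ Function.update P i (l1 ++ v :: w :: l3) j, u ∈ P j := by
    intro j u hu
    by_cases hj : j = i
    · subst hj
      rw [Function.update_self] at hu
      exact hsub' u hu
    · rwa [Function.update_of_ne hj] at hu
  refine hP.no_drop G (P' := Function.update P i (l1 ++ v :: w :: l3)) (i := i) ⟨?_, ?_⟩
    (fun j u hu => ⟨j, hsub j u hu⟩) (by rw [hi]; simp [hz]) ?_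
  · intro j
    by_cases hj : j = i
    · subst hj
      rw [Function.update_self]
      exact hnew
    · rw [Function.update_of_ne hj]
      exact hP.fan.path j
  · intro a b hab u hu hu'
    exact hP.fan.disj a b hab u (hsub a u hu) (hsub b u hu')
  · intro j hj
    by_cases hji : j = i
    · subst hji
      rw [Function.update_self] at hj
      have hnd2 := hpi.nodup
      simp only [List.nodup_append, List.nodup_cons, List.mem_append, List.mem_cons,
        not_or] at hnd2
      simp only [List.mem_append, List.mem_cons] at hj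
      obtain ⟨n1, ⟨n2, n3, n4, n5⟩, n6⟩ := hnd2
      rcases hj with hj | hj | hj | hj
      · exact n6 z hj z (Or.inr (Or.inl hz)) rfl
      · subst hj; exact n2.1 hz
      · exact n5 z hz w (Or.inl rfl) hj
      · exact n5 z hz z (Or.inr hj) rfl
    · rw [Function.update_of_ne hji] at hj
      exact hP.fan.disj i j (Ne.symm hji) z (by rw [hi]; simp [hz]) hj

/-- **Proof.** Replace `P i` by `l1 ++ v :: w :: m3` and `P j` by `m1 ++ w' :: v' :: l3`; the vertices of `l2` and
`m2` are dropped. -/
theorem fan_cross {k : ℕ} {H L : Finset V} {x : V} {P : Fin k → List V}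
    (hP : MinFan G H L x P) {i j : Fin k} (hij : i ≠ j) {l1 l2 l3 m1 m2 m3 : List V}
    {v v' w w' : V} (hi : P i = l1 ++ v :: (l2 ++ v' :: l3))
    (hj : P j = m1 ++ w' :: (m2 ++ w :: m3)) (h1 : G.Adj v w) (h2 : G.Adj v' w') :
    (∀ z ∈ l2, z ∈ L) ∧ (∀ z ∈ m2, z ∈ L) := by
  have hpi := hP.fan.path i
  have hpj := hP.fan.path j
  rw [hi] at hpi
  rw [hj] at hpj
  have ei : l1 ++ v :: (l2 ++ v' :: l3) = (l1 ++ v :: l2) ++ v' :: l3 := by simp
  have ej : m1 ++ w' :: (m2 ++ w :: m3) = (m1 ++ w' :: m2) ++ w :: m3 := by simp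
  have hpi2 := hpi
  rw [ei] at hpi2
  have hpj2 := hpj
  rw [ej] at hpj2
  have hdis : ∀ u, u ∈ P i → u ∉ P j := hP.fan.disj i j hij
  have hmi : ∀ u, u ∈ P i ↔ (u ∈ l1 ∨ u = v ∨ u ∈ l2 ∨ u = v' ∨ u ∈ l3) := by
    intro u; rw [hi]; simp
  have hmj : ∀ u, u ∈ P j ↔ (u ∈ m1 ∨ u = w' ∨ u ∈ m2 ∨ u = w ∨ u ∈ m3) := by
    intro u; rw [hj]; simp
  set p1 := l1 ++ v :: w :: m3 with hp1
  set p2 := m1 ++ w' :: v' :: l3 with hp2
  have hm1 : ∀ u, u ∈ p1 ↔ (u ∈ l1 ∨ u = v ∨ u = w ∨ u ∈ m3) := by
    intro u; rw [hp1]; simp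
  have hm2 : ∀ u, u ∈ p2 ↔ (u ∈ m1 ∨ u = w' ∨ u = v' ∨ u ∈ l3) := by
    intro u; rw [hp2]; simp
  have hnew1 : PathL G (univ.erase x) (G.neighborFinset x) H p1 := by
    refine PathL.splice G hpi hpj2 h1 ?_
    intro a ha hb
    rw [List.mem_append, List.mem_singleton] at ha
    rw [List.mem_cons] at hb
    refine hdis a ((hmi a).2 ?_) ((hmj a).2 ?_) <;> tauto
  have hnew2 : PathL G (univ.erase x) (G.neighborFinset x) H p2 := by
    refine PathL.splice G hpj hpi2 h2.symm ?_
    intro a ha hb
    rw [List.mem_append, List.mem_singleton] at ha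
    rw [List.mem_cons] at hb
    refine hdis a ((hmi a).2 ?_) ((hmj a).2 ?_) <;> tauto
  have ndi : (∀ z ∈ l2, z ∉ p1 ∧ z ∉ p2) ∧ (∀ z, z ∈ p1 → z ∈ p2 → z ∈ P i → False) := by
    have hnd := hpi.nodup
    simp only [List.nodup_append, List.nodup_cons, List.mem_append, List.mem_cons,
      not_or] at hnd
    obtain ⟨n1, ⟨n2, n3, n4, n5⟩, n6⟩ := hnd
    refine ⟨fun z hz => ⟨?_, ?_⟩, ?_⟩
    · rw [hm1]
      rintro (h | h | h | h)
      · exact n6 z h z (Or.inr (Or.inl hz)) rfl
      · subst h; exact n2.1 hz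
      · exact hdis z ((hmi z).2 (by tauto)) ((hmj z).2 (by tauto))
      · exact hdis z ((hmi z).2 (by tauto)) ((hmj z).2 (by tauto))
    · rw [hm2]
      rintro (h | h | h | h)
      · exact hdis z ((hmi z).2 (by tauto)) ((hmj z).2 (by tauto))
      · exact hdis z ((hmi z).2 (by tauto)) ((hmj z).2 (by tauto))
      · exact n5 z hz v' (Or.inl rfl) h
      · exact n5 z hz z (Or.inr h) rfl
    · intro z h1' h2' hzi
      have hzj : z ∉ P j := hdis z hzi
      rw [hm1] at h1'
      rw [hm2] at h2'
      have a1 : z ∈ l1 ∨ z = v := by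
        rcases h1' with h | h | h | h
        · exact Or.inl h
        · exact Or.inr h
        · exact absurd ((hmj z).2 (by tauto)) hzj
        · exact absurd ((hmj z).2 (by tauto)) hzj
      have a2 : z = v' ∨ z ∈ l3 := by
        rcases h2' with h | h | h | h
        · exact absurd ((hmj z).2 (by tauto)) hzj
        · exact absurd ((hmj z).2 (by tauto)) hzj
        · exact Or.inl h
        · exact Or.inr h
      rcases a1 with a1 | a1
      · rcases a2 with a2 | a2
        · exact n6 z a1 v' (Or.inr (Or.inr (Or.inl rfl))) a2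
        · exact n6 z a1 z (Or.inr (Or.inr (Or.inr a2))) rfl
      · subst a1
        rcases a2 with a2 | a2
        · exact n2.2.1 a2
        · exact n2.2.2 a2
  have ndj : (∀ z ∈ m2, z ∉ p1 ∧ z ∉ p2) ∧ (∀ z, z ∈ p1 → z ∈ p2 → z ∈ P j → False) := by
    have hnd := hpj.nodup
    simp only [List.nodup_append, List.nodup_cons, List.mem_append, List.mem_cons,
      not_or] at hnd
    obtain ⟨n1, ⟨n2, n3, n4, n5⟩, n6⟩ := hnd
    refine ⟨fun z hz => ⟨?_, ?_⟩, ?_⟩
    · rw [hm1]
      rintro (h | h | h | h)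
      · exact hdis z ((hmi z).2 (by tauto)) ((hmj z).2 (by tauto))
      · exact hdis z ((hmi z).2 (by tauto)) ((hmj z).2 (by tauto))
      · exact n5 z hz w (Or.inl rfl) h
      · exact n5 z hz z (Or.inr h) rfl
    · rw [hm2]
      rintro (h | h | h | h)
      · exact n6 z h z (Or.inr (Or.inl hz)) rfl
      · subst h; exact n2.1 hz
      · exact hdis z ((hmi z).2 (by tauto)) ((hmj z).2 (by tauto))
      · exact hdis z ((hmi z).2 (by tauto)) ((hmj z).2 (by tauto))
    · intro z h1' h2' hzj
      have hzi : z ∉ P i := fun h => hdis z h hzj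
      rw [hm1] at h1'
      rw [hm2] at h2'
      have a2 : z ∈ m1 ∨ z = w' := by
        rcases h2' with h | h | h | h
        · exact Or.inl h
        · exact Or.inr h
        · exact absurd ((hmi z).2 (by tauto)) hzi
        · exact absurd ((hmi z).2 (by tauto)) hzi
      have a1 : z = w ∨ z ∈ m3 := by
        rcases h1' with h | h | h | h
        · exact absurd ((hmi z).2 (by tauto)) hzi
        · exact absurd ((hmi z).2 (by tauto)) hzi
        · exact Or.inl h
        · exact Or.inr h
      rcases a2 with a2 | a2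
      · rcases a1 with a1 | a1
        · exact n6 z a2 w (Or.inr (Or.inr (Or.inl rfl))) a1
        · exact n6 z a2 z (Or.inr (Or.inr (Or.inr a1))) rfl
      · subst a2
        rcases a1 with a1 | a1
        · exact n2.2.1 a1
        · exact n2.2.2 a1
  have hs1 : ∀ u ∈ p1, u ∈ P i ∨ u ∈ P j := by
    intro u hu
    rw [hm1] at hu
    rw [hmi, hmj]
    tauto
  have hs2 : ∀ u ∈ p2, u ∈ P i ∨ u ∈ P j := by
    intro u hu
    rw [hm2] at hu
    rw [hmi, hmj]
    tauto
  let P' : Fin k → List V := Function.update (Function.update P i p1) j p2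
  have e1 : P' i = p1 := by
    simp only [P']
    rw [Function.update_of_ne hij, Function.update_self]
  have e2 : P' j = p2 := by simp only [P']; rw [Function.update_self]
  have e3 : ∀ a, a ≠ i → a ≠ j → P' a = P a := by
    intro a h h'
    simp only [P']
    rw [Function.update_of_ne h', Function.update_of_ne h]
  have hdj12 : ∀ u ∈ p1, u ∉ p2 := by
    intro u hu hu'
    rcases hs1 u hu with h | h
    · exact ndi.2 u hu hu' h
    · exact ndj.2 u hu hu' h
  have hdo : ∀ a, a ≠ i → a ≠ j → ∀ u ∈ P a, u ∉ p1 ∧ u ∉ p2 := by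
    intro a h h' u hu
    refine ⟨fun hu' => ?_, fun hu' => ?_⟩
    · rcases hs1 u hu' with h2' | h2'
      · exact hP.fan.disj a i h u hu h2'
      · exact hP.fan.disj a j h' u hu h2'
    · rcases hs2 u hu' with h2' | h2'
      · exact hP.fan.disj a i h u hu h2'
      · exact hP.fan.disj a j h' u hu h2'
  have hF : Fan G H x P' := by
    refine ⟨fun a => ?_, fun a b hab u hu hu' => ?_⟩
    · by_cases ha : a = i
      · subst ha; rw [e1]; exact hnew1
      · by_cases ha' : a = j
        · subst ha'; rw [e2]; exact hnew2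
        · rw [e3 a ha ha']; exact hP.fan.path a
    · by_cases ha : a = i
      · subst ha
        rw [e1] at hu
        by_cases hb : b = j
        · subst hb; rw [e2] at hu'; exact hdj12 u hu hu'
        · rw [e3 b (Ne.symm hab) hb] at hu'
          exact (hdo b (Ne.symm hab) hb u hu').1 hu
      · by_cases ha' : a = j
        · subst ha'
          rw [e2] at hu
          by_cases hb : b = i
          · subst hb; rw [e1] at hu'; exact hdj12 u hu' hu
          · rw [e3 b hb (Ne.symm hab)] at hu'
            exact (hdo b hb (Ne.symm hab) u hu').2 hu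
        · rw [e3 a ha ha'] at hu
          by_cases hb : b = i
          · subst hb; rw [e1] at hu'; exact (hdo a ha ha' u hu).1 hu'
          · by_cases hb' : b = j
            · subst hb'; rw [e2] at hu'; exact (hdo a ha ha' u hu).2 hu'
            · rw [e3 b hb hb'] at hu'
              exact hP.fan.disj a b hab u hu hu'
  have hsub : ∀ a, ∀ u ∈ P' a, ∃ b, u ∈ P b := by
    intro a u hu
    by_cases ha : a = i
    · subst ha
      rw [e1] at hu
      rcases hs1 u hu with h | h
      · exact ⟨_, h⟩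
      · exact ⟨_, h⟩
    · by_cases ha' : a = j
      · subst ha'
        rw [e2] at hu
        rcases hs2 u hu with h | h
        · exact ⟨_, h⟩
        · exact ⟨_, h⟩
      · rw [e3 a ha ha'] at hu; exact ⟨a, hu⟩
  have hout : ∀ z, (z ∈ P i ∨ z ∈ P j) → z ∉ p1 → z ∉ p2 → ∀ a, z ∉ P' a := by
    intro z hz h1' h2' a ha
    by_cases hai : a = i
    · subst hai; rw [e1] at ha; exact h1' ha
    · by_cases haj : a = j
      · subst haj; rw [e2] at ha; exact h2' ha
      · rw [e3 a hai haj] at ha
        rcases hz with hz | hz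
        · exact hP.fan.disj a i hai z ha hz
        · exact hP.fan.disj a j haj z ha hz
  constructor
  · intro z hz
    have hzi : z ∈ P i := (hmi z).2 (by tauto)
    exact hP.no_drop G hF hsub hzi (hout z (Or.inl hzi) (ndi.1 z hz).1 (ndi.1 z hz).2)
  · intro z hz
    have hzj : z ∈ P j := (hmj z).2 (by tauto)
    exact hP.no_drop G hF hsub hzj (hout z (Or.inr hzj) (ndj.1 z hz).1 (ndj.1 z hz).2)

end

end Pool.Agent.Lib_MP_f6e057_co.AC
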