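import Pool.Agent.Lib_MP_f6e057_co.AC.CountSame
import Pool.Agent.Lib_MP_f6e057_co.AC.CountCross
import Pool.Agent.Lib_MP_f6e057_co.AC.FanChord

/-!
# A minimal fan spans few edges
-/

set_option autoImplicit false
set_option linter.unusedSectionVars false

namespace Pool.Agent.Lib_MP_f6e057_co.AC

open Finset

section
variable {V : Type*} [Fintype V] [DecidableEq V] (G : SimpleGraph V) [DecidableRel G.Adj]

/-- **Proof.** Let `q i = (P i).toFinset \ L`; these sets are disjoint and their union is `VP P \ L`, so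
`∑ i, |q i| = |VP P \ L|` and the left side is `∑ i, ∑ j, ∑ v ∈ q i, dg G (q j) v`. The term `i = j` is at most
`2 |q i|` (`count_same`, `fan_chord`), the other terms at most `2 (|q i| + |q j|)` (`count_cross`,
`fan_cross`); so each term is at most `2 (|q i| + |q j|)` and the sum at most `4 k |VP P \ L|`. -/
theorem fan_count {k : ℕ} {H L : Finset V} {x : V} {P : Fin k → List V}
    (hP : MinFan G H L x P) :
    ∑ v ∈ VP P \ L, dg G (VP P \ L) v ≤ 4 * k * (VP P \ L).card := by
  set q : Fin k → Finset V := fun i => (P i).toFinset \ L with hq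
  have hU : VP P \ L = univ.biUnion q := by
    ext v
    simp only [VP, hq, mem_sdiff, mem_biUnion, mem_univ, true_and]
    constructor
    · rintro ⟨⟨i, hi⟩, hv⟩
      exact ⟨i, hi, hv⟩
    · rintro ⟨i, hi, hv⟩
      exact ⟨⟨i, hi⟩, hv⟩
  have hdisj : ∀ i ∈ (univ : Finset (Fin k)), ∀ j ∈ (univ : Finset (Fin k)), i ≠ j →
      Disjoint (q i) (q j) := by
    intro i _ j _ hij
    rw [disjoint_left]
    intro v hv hv'
    simp only [hq, mem_sdiff, List.mem_toFinset] at hv hv'
    exact hP.fan.disj i j hij v hv.1 hv'.1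
  have hcard : (VP P \ L).card = ∑ i, (q i).card := by
    rw [hU, card_biUnion hdisj]
  have hdg : ∀ v, dg G (VP P \ L) v ≤ ∑ j, dg G (q j) v := by
    intro v
    unfold dg
    rw [hU, filter_biUnion]
    exact card_biUnion_le
  have hterm : ∀ i j, ∑ v ∈ q i, dg G (q j) v ≤ 2 * ((q i).card + (q j).card) := by
    intro i j
    by_cases hij : i = j
    · subst hij
      have h1 := count_same G (p := P i) (L := L) (hP.fan.path i).nodup
        (fun l1 l2 l3 v w hp ha => fan_chord G hP hp ha)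
      simp only [hq]
      omega
    · exact count_cross G (hP.fan.path i).nodup (hP.fan.path j).nodup
        (fun l1 l2 l3 m1 m2 m3 v v' w w' h1 h2 h3 h4 => fan_cross G hP hij h1 h2 h3 h4)
  have h1 : ∑ v ∈ VP P \ L, dg G (VP P \ L) v ≤ ∑ i, ∑ j, ∑ v ∈ q i, dg G (q j) v := by
    calc ∑ v ∈ VP P \ L, dg G (VP P \ L) v
        ≤ ∑ v ∈ VP P \ L, ∑ j, dg G (q j) v := sum_le_sum fun v _ => hdg v
      _ = ∑ i, ∑ v ∈ q i, ∑ j, dg G (q j) v := by rw [hU, sum_biUnion hdisj]
      _ = ∑ i, ∑ j, ∑ v ∈ q i, dg G (q j) v := sum_congr rfl fun i _ => sum_comm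
  refine h1.trans ?_
  calc ∑ i, ∑ j, ∑ v ∈ q i, dg G (q j) v
      ≤ ∑ i : Fin k, ∑ j : Fin k, 2 * ((q i).card + (q j).card) :=
        sum_le_sum fun i _ => sum_le_sum fun j _ => hterm i j
    _ = 4 * k * (VP P \ L).card := by
        rw [hcard]
        simp only [mul_add, sum_add_distrib, sum_const, card_univ, Fintype.card_fin, smul_eq_mul]
        rw [← mul_sum, ← mul_sum]
        ring

end

end Pool.Agent.Lib_MP_f6e057_co.AC
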