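import Pool.Agent.Lib_MP_f6e057_co.AC.Menger
import Pool.Agent.Lib_MP_f6e057_co.Basic

/-!
# Fans exist in k-connected graphs
-/

set_option autoImplicit false
set_option linter.unusedSectionVars false

namespace Pool.Agent.Lib_MP_f6e057_co.AC

open Finset

section
variable {V : Type*} [Fintype V] [DecidableEq V] (G : SimpleGraph V) [DecidableRel G.Adj]

/-- **Proof.** `menger` with `R = univ.erase x`, `A = neighborFinset x`, `C = H`. Let `|X| < k`, `X' = X.erase x`.
`G.induce X'ᶜ` is connected, `x ∉ X'`, and some `c ∈ H \ X'` exists (`|H| > k`). Take a path (`Walk.IsPath`)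
from `x` to `c` in the induced graph, map it to `G`, and take `p` = the tail of its support (nonempty
since `x ≠ c`): it avoids `x` and `X`. -/
theorem exists_fan {k : ℕ} (hG : KConnected k G) {H : Finset V} (hH : k < H.card) {x : V}
    (hx : x ∉ H) : ∃ P : Fin k → List V, Fan G H x P := by
  apply menger
  intro X hX
  classical
  set X' : Finset V := X.erase x with hX'
  have hc1 : X'.card < k := lt_of_le_of_lt (card_le_card (erase_subset _ _)) hX
  have hconn := hG.2 (X' : Set V) (by rwa [Set.ncard_coe_finset])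
  obtain ⟨c, hcH, hcX⟩ : ∃ c ∈ H, c ∉ X' := by
    by_contra hcon
    push Not at hcon
    have := card_le_card (show H ⊆ X' from hcon)
    omega
  have hcx : c ≠ x := fun hh => hx (hh ▸ hcH)
  have hxX' : x ∉ X' := by simp [hX']
  obtain ⟨w⟩ := hconn.preconnected ⟨x, by simpa using hxX'⟩ ⟨c, by simpa using hcX⟩
  obtain ⟨p, hp⟩ : ∃ p : (G.induce ((X' : Set V)ᶜ)).Walk ⟨x, by simpa using hxX'⟩
      ⟨c, by simpa using hcX⟩, p.IsPath := ⟨w.toPath.1, w.toPath.2⟩
  have key : ∀ (a b : ((X' : Set V)ᶜ : Set V)) (p : (G.induce ((X' : Set V)ᶜ)).Walk a b),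
      p.IsPath → (a : V) = x → (b : V) ≠ x →
      ∃ l, PathL G (univ.erase x) (G.neighborFinset x) {(b : V)} l ∧ ∀ v ∈ l, v ∉ X' := by
    intro a b p hp ha hb
    cases p with
    | nil => exact absurd ha hb
    | @cons _ a' _ hadj p =>
      refine ⟨p.support.map Subtype.val, ⟨?_, ?_, ?_, ?_, ?_⟩, ?_⟩
      · rw [List.isChain_map]
        exact p.isChain_adj_support.imp fun u v h => by simpa using h
      · exact (List.nodup_map_iff Subtype.val_injective).mpr hp.of_cons.support_nodup
      · intro v hv
        rw [mem_erase]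
        refine ⟨?_, mem_univ _⟩
        rintro rfl
        rw [List.mem_map] at hv
        obtain ⟨u, hu, hua⟩ := hv
        have : u = a := Subtype.ext (hua.trans ha.symm)
        subst this
        exact ((SimpleGraph.Walk.cons_isPath_iff _ _).mp hp).2 hu
      · refine ⟨(a' : V), ?_, ?_⟩
        · rw [SimpleGraph.mem_neighborFinset, ← ha]
          simpa using hadj
        · rw [List.head?_map]
          cases p <;> simp
      · refine ⟨(b : V), mem_singleton_self _, ?_⟩
        rw [List.getLast?_map, List.getLast?_eq_some_getLast (by simp : p.support ≠ [])]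
        simp
      · intro v hv
        rw [List.mem_map] at hv
        obtain ⟨u, -, rfl⟩ := hv
        exact fun hh => u.2 (mem_coe.mpr hh)
  obtain ⟨l, hl, hlX⟩ := key _ _ p hp rfl hcx
  refine ⟨l, ⟨hl.chain, hl.nodup, hl.sub, hl.head, ?_⟩, ?_⟩
  · obtain ⟨c', hc', hh⟩ := hl.last
    rw [mem_singleton] at hc'
    subst hc'
    exact ⟨_, hcH, hh⟩
  · intro v hv hvX
    apply hlX v hv
    rw [hX', mem_erase]
    exact ⟨(mem_erase.mp (hl.sub v hv)).1, hvX⟩

end

end Pool.Agent.Lib_MP_f6e057_co.AC
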