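import Pool.Agent.Lib_MP_f6e057_co.AC.Mader
import Pool.Agent.Lib_MP_f6e057_co.AC.EmbedIn

/-!
# The extremal configuration exists
-/

set_option autoImplicit false
set_option linter.unusedSectionVars false

namespace Pool.Agent.Lib_MP_f6e057_co.AC

open Finset

section
variable {V : Type*} [Fintype V] [DecidableEq V] (G : SimpleGraph V) [DecidableRel G.Adj]

/-- **Proof.** `embed_in` with `O = univ` gives a copy `g`; `L0 = (univ.image g)ᶜ`: every vertex has at
least `4 k` neighbours in `L0` (`degree_eq`, `dg_le_card`), `L0` is nonempty. `mader` with `R = L0`, `q = k`,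
`g = 2 k` gives `J`, and `Car G k J J J` (the link property is void: `U ⊆ J`, `U` disjoint from `J`). So
valid configurations exist; choose `(g, H, B, L)` maximising `|B|`, then minimising `|L|`, then maximising
`tE G L` (all bounded: three times `Nat.find` or `exists_max_image` over the finite type
`(W → V) × Finset V × Finset V × Finset V`, or one maximisation of
`(|B| * (N + 1) + (N - |L|)) * (N^2 + 1) + tE`). -/
theorem exists_opt {W : Type} [Fintype W] {T : SimpleGraph W} (hT : T.IsTree) {k : ℕ}
    (hk : 1 ≤ k) (hd : Fintype.card W + 4 * k ≤ G.minDegree) :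
    ∃ (g : W → V) (H B L : Finset V), Opt G T k g H B L := by
  classical
  rcases isEmpty_or_nonempty V with hV | hV
  · exfalso
    have : G.minDegree = 0 := by
      simp [SimpleGraph.minDegree]
    omega
  obtain ⟨v0⟩ := hV
  have hdeg : ∀ v, Fintype.card W + 4 * k ≤ G.degree v := fun v => hd.trans (G.minDegree_le_degree v)
  have hun : ∀ v, dg G univ v = G.degree v := by
    intro v
    rw [degree_eq G univ v, compl_univ]
    simp [dg]
  obtain ⟨g, hg, -⟩ := embed_in G hT (O := univ) ⟨v0, mem_univ _⟩ (by
    intro v _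
    rw [hun v]
    have := hdeg v
    omega)
  have himg : (univ.image g).card ≤ Fintype.card W := card_image_le
  have h4 : ∀ v, 4 * k ≤ dg G (univ.image g)ᶜ v := by
    intro v
    have h1 := degree_eq G (univ.image g) v
    have h2 := dg_le_card G (univ.image g) v
    have h3 := hdeg v
    omega
  have hL0 : ((univ.image g)ᶜ).Nonempty := by
    rw [← card_pos]
    have h1 := dg_le_card G (univ.image g)ᶜ v0
    have h2 := h4 v0
    omega
  obtain ⟨J, hJ, hJn, hJd, hJc⟩ := mader G hL0 hk (le_refl (2 * k)) (fun v _ => by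
    have := h4 v
    omega)
  obtain ⟨j, hj⟩ := hJn
  have hcar : Car G k J J J :=
    { HB := Subset.refl J
      BL := Subset.refl J
      big := by
        have h1 := hJd j hj
        have h2 := dg_lt_card G hj
        omega
      core := fun U hU hUn hX => (hJc U hU hUn hX).le
      link := fun U _ h1 h2 => absurd h1 h2 }
  have hval : Valid G T k g J J J :=
    { car := hcar
      copy := hg
      out := by
        intro x hx
        have := hJ hx
        rw [mem_compl] at this
        exact this (mem_image_of_mem g (mem_univ x)) }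
  let X := {x : (W → V) × Finset V × Finset V × Finset V // Valid G T k x.1 x.2.1 x.2.2.1 x.2.2.2}
  haveI : Nonempty X := ⟨⟨(g, J, J, J), hval⟩⟩
  obtain ⟨⟨⟨g0, H0, B0, L0⟩, hx0⟩, hmax⟩ := Finite.exists_max
    (fun x : X => toLex (x.1.2.2.1.card, toLex (OrderDual.toDual x.1.2.2.2.card,
      tE G x.1.2.2.2)))
  refine ⟨g0, H0, B0, L0, ?_⟩
  have hm : ∀ (g' : W → V) (H' B' L' : Finset V), Valid G T k g' H' B' L' →
      B'.card < B0.card ∨ (B'.card = B0.card ∧
        (L0.card < L'.card ∨ (L'.card = L0.card ∧ tE G L' ≤ tE G L0))) := by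
    intro g' H' B' L' h
    have h1 := hmax ⟨(g', H', B', L'), h⟩
    rw [Prod.Lex.toLex_le_toLex] at h1
    rcases h1 with h1 | ⟨h1, h2⟩
    · exact Or.inl h1
    · right
      refine ⟨h1, ?_⟩
      rw [Prod.Lex.toLex_le_toLex] at h2
      rcases h2 with h2 | ⟨h2, h3⟩
      · exact Or.inl h2
      · right
        exact ⟨OrderDual.toDual_inj.1 h2, h3⟩
  exact
    { val := hx0
      maxB := fun g' H' B' L' h => by
        rcases hm g' H' B' L' h with h1 | ⟨h1, -⟩ <;> omega
      minL := fun g' H' B' L' h hB => by
        rcases hm g' H' B' L' h with h1 | ⟨h1, h2 | ⟨h2, -⟩⟩ <;> omega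
      maxE := fun g' H' B' L' h hB hL => by
        rcases hm g' H' B' L' h with h1 | ⟨h1, h2 | ⟨h2, h3⟩⟩
        · omega
        · omega
        · exact h3 }

end

end Pool.Agent.Lib_MP_f6e057_co.AC
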