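import Pool.Agent.Lib_MP_f6e057_co.AC.Car

/-!
# If the copy is the whole complement of the carrier, then B = L
-/

set_option autoImplicit false
set_option linter.unusedSectionVars false

namespace Pool.Agent.Lib_MP_f6e057_co.AC

open Finset

section
variable {V : Type*} [Fintype V] [DecidableEq V] (G : SimpleGraph V) [DecidableRel G.Adj]

/-- **Proof.** Suppose `B ≠ L`, so some `y ∈ L \ B`; `(g, H, insert y B, L)` is not valid (`h.maxB`), so
by `Car.region` there is a nonempty region. Choose a nonempty region `R` (`Reg G k H L R`) of minimal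
cardinality; `S = nbL G L R`, `|S| ≤ k - 1`; `R` is disjoint from `B`. Every `z ∈ R`: `(g, H, B, L.erase z)`
is not valid (`h.minL`), so by `Car.tight` there is a tight `U` with `z ∈ N(U)`. `R ∩ U = ∅`: otherwise
`R ∩ U` is a nonempty region (`Car.inter_le`) smaller than `R` (`z ∉ U`). The neighbour `s ∈ U` of `z` is
in `S` and all `R`-neighbours of `s` are in `N(U)`, so `s` has at most `k` neighbours in `R`. So `R` is
contained in the union over the `s ∈ S` with at most `k` neighbours in `R` of their neighbourhoods: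
`|R| ≤ (k - 1) k`. For `z ∈ R`: `degree z = dg L z + dg Lᶜ z ≤ (|R| + |S| - 1) + |W|` (`dg_le_of_mem`,
`hcov`), which is less than `|W| + k^2`. -/
theorem stepC {W : Type*} [Fintype W] {T : SimpleGraph W} {k : ℕ} (hk : 1 ≤ k) {g : W → V}
    {H B L : Finset V} (h : Opt G T k g H B L) (hcov : ∀ v, v ∉ L → ∃ x, g x = v)
    (hd : Fintype.card W + k ^ 2 ≤ G.minDegree) : B = L := by
  by_contra hBL
  have hcar := h.val.car
  obtain ⟨y, hyL, hyB⟩ : ∃ y ∈ L, y ∉ B := by
    by_contra hcon
    push Not at hcon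
    exact hBL (Subset.antisymm hcar.BL hcon)
  have hn : ¬ Car G k H (insert y B) L := by
    intro hc
    have h1 := h.maxB g H (insert y B) L ⟨hc, h.val.copy, h.val.out⟩
    rw [card_insert_of_notMem hyB] at h1
    omega
  obtain ⟨R0, hR0, hyR0⟩ := hcar.region G hyL hn
  classical
  have hne : ((univ : Finset (Finset V)).filter fun R => R.Nonempty ∧ Reg G k H L R).Nonempty :=
    ⟨R0, mem_filter.mpr ⟨mem_univ _, ⟨y, hyR0⟩, hR0⟩⟩
  obtain ⟨R, hRm, hRmin⟩ := exists_min_image _ (fun R : Finset V => R.card) hne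
  obtain ⟨-, hRne, hR⟩ := mem_filter.mp hRm
  have hRB := hcar.reg_disj G hR
  have key : ∀ z ∈ R, ∃ s ∈ nbL G L R, G.Adj s z ∧ (R.filter fun v => G.Adj s v).card ≤ k := by
    intro z hz
    have hzB : z ∉ B := fun hh => disjoint_left.mp hRB hz hh
    have hzL : z ∈ L := hR.sub hz
    have hn2 : ¬ Car G k H B (L.erase z) := by
      intro hc
      have h1 := h.minL g H B (L.erase z)
        ⟨hc, h.val.copy, fun x hx => h.val.out x (mem_erase.mp hx).2⟩ rfl
      rw [card_erase_of_mem hzL] at h1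
      have h2 : 0 < L.card := card_pos.mpr ⟨z, hzL⟩
      omega
    obtain ⟨b, hb, U, hU, hzU⟩ := hcar.tight G hzL hzB hn2
    have hzU' := hzU
    rw [mem_nbL] at hzU
    obtain ⟨-, hznU, s, hs, hadj⟩ := hzU
    have hRU : ∀ v ∈ R, v ∉ U := by
      intro v hvR hvU
      have hreg : Reg G k H L (R ∩ U) :=
        ⟨inter_subset_left.trans hR.sub, disjoint_of_subset_left inter_subset_left hR.dis,
          lt_of_le_of_lt (hcar.inter_le G hR hb hU) hR.card⟩
      have h1 := hRmin (R ∩ U) (mem_filter.mpr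
        ⟨mem_univ _, ⟨v, mem_inter.mpr ⟨hvR, hvU⟩⟩, hreg⟩)
      have h2 : (R ∩ U).card < R.card := by
        apply card_lt_card
        refine ⟨inter_subset_left, fun hh => hznU (mem_inter.mp (hh hz)).2⟩
      omega
    refine ⟨s, ?_, hadj, ?_⟩
    · rw [mem_nbL]
      exact ⟨hU.sub hs, fun hh => hRU s hh hs, z, hz, hadj.symm⟩
    · rw [← hU.card]
      apply card_le_card
      intro v hv
      rw [mem_filter] at hv
      rw [mem_nbL]
      exact ⟨hR.sub hv.1, hRU v hv.1, s, hs, hv.2⟩
  have hRcard : R.card ≤ (nbL G L R).card * k := by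
    have h1 : R ⊆ ((nbL G L R).filter fun s => (R.filter fun v => G.Adj s v).card ≤ k).biUnion
        fun s => R.filter fun v => G.Adj s v := by
      intro z hz
      obtain ⟨s, hs, ha, hc⟩ := key z hz
      rw [mem_biUnion]
      exact ⟨s, mem_filter.mpr ⟨hs, hc⟩, mem_filter.mpr ⟨hz, ha⟩⟩
    refine (card_le_card h1).trans ((card_biUnion_le_card_mul _ _ k ?_).trans ?_)
    · intro s hs
      exact (mem_filter.mp hs).2
    · exact Nat.mul_le_mul_right k (card_le_card (filter_subset _ _))
  obtain ⟨z, hz⟩ := hRne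
  have h1 := degree_eq G L z
  have h2 := dg_le_of_mem G (L := L) hz
  have h3 := dg_le_card G Lᶜ z
  have h4 : Lᶜ.card ≤ Fintype.card W := by
    have h5 : Lᶜ ⊆ (univ : Finset W).image g := by
      intro v hv
      obtain ⟨x, hx⟩ := hcov v (mem_compl.mp hv)
      exact mem_image.mpr ⟨x, mem_univ _, hx⟩
    exact (card_le_card h5).trans card_image_le
  have h6 := G.minDegree_le_degree z
  have h7 := hR.card
  obtain ⟨j, rfl⟩ : ∃ j, k = j + 1 := ⟨k - 1, by omega⟩
  have h8 : (nbL G L R).card * (j + 1) ≤ j * (j + 1) := Nat.mul_le_mul_right _ (by omega)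
  have h9 : (j + 1) ^ 2 = j * (j + 1) + j + 1 := by ring
  omega

end

end Pool.Agent.Lib_MP_f6e057_co.AC
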