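import Pool.Agent.Lib_MP_f6e057_co.AC.FanExists
import Pool.Agent.Lib_MP_f6e057_co.AC.FanCar
import Pool.Agent.Lib_MP_f6e057_co.AC.FanDeg
import Pool.Agent.Lib_MP_f6e057_co.AC.FanCount
import Pool.Agent.Lib_MP_f6e057_co.AC.EmbedIn

/-!
# The carrier can be enlarged if there is a vertex outside the carrier and the copy
-/

set_option autoImplicit false
set_option linter.unusedSectionVars false

namespace Pool.Agent.Lib_MP_f6e057_co.AC

open Finset

section
variable {V : Type*} [Fintype V] [DecidableEq V] (G : SimpleGraph V) [DecidableRel G.Adj]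

/-- **Proof.** `T` is a tree, so `1 ≤ |W|` and `univ \ L` has at least 2 elements; pick `x ∉ L`. By
`exists_fan` there is a fan `P` from `x` to `H` (`x ∉ H ⊆ L`); choose one with `|VP P \ L|` minimal:
`MinFan G H L x P`. `Q0 = VP P \ L` (`x ∉ Q0`), `O = univ \ (L ∪ insert x (VP P))`.
(1) `O ≠ ∅`: otherwise `univ = L ∪ {x} ∪ Q0`, `Q0 ≠ ∅`, and every `v ∈ Q0` has
`dg G Q0 v ≥ degree v - dg G L v - 1 ≥ m + 4 k` (`hc`), so `∑ v ∈ Q0, dg G Q0 v > 4 k |Q0|`, contradicting
`fan_count`.
(2) every `o ∈ O` has `dg G O o ≥ degree o - dg G L o - 1 - dg G Q0 o ≥ m + k` (`fan_deg_all`), so by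
`embed_in` there is a copy `g'` of `T` in `O`.
(3) `(g', H, insert x B, L ∪ insert x (VP P))` is valid by `fan_car`, and `insert x B` is larger than `B`,
contradicting `h.maxB`. -/
theorem stepD {W : Type} [Fintype W] {T : SimpleGraph W} (hT : T.IsTree) {k : ℕ}
    (hG : KConnected k G) {g : W → V} {H B L : Finset V} (h : Opt G T k g H B L)
    (hd : Fintype.card W + 3 * k ^ 2 + 8 * k + 1 ≤ G.minDegree)
    (hne : Fintype.card W < (univ \ L).card)
    (hc : ∀ u ∉ L, dg G L u ≤ 3 * k ^ 2 + 4 * k) : False := by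
  classical
  haveI : Nonempty W := hT.1.nonempty
  have hW : 1 ≤ Fintype.card W := Fintype.card_pos
  have hcar := h.val.car
  obtain ⟨x, hx⟩ : (univ \ L).Nonempty := card_pos.1 (by omega)
  have hxL : x ∉ L := (mem_sdiff.1 hx).2
  have hxB : x ∉ B := fun hh => hxL (hcar.BL hh)
  have hxH : x ∉ H := fun hh => hxB (hcar.HB hh)
  -- a minimal fan
  have hex : ∃ n, ∃ P : Fin k → List V, Fan G H x P ∧ (VP P \ L).card = n := by
    obtain ⟨P, hP⟩ := exists_fan G hG hcar.big hxH
    exact ⟨_, P, hP, rfl⟩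
  obtain ⟨P, hPf, hPn⟩ := Nat.find_spec hex
  have hP : MinFan G H L x P := ⟨hPf, fun P' hP' => by
    rw [hPn]
    exact Nat.find_min' hex ⟨P', hP', rfl⟩⟩
  set Q : Finset V := VP P \ L with hQ
  set O : Finset V := univ \ (L ∪ insert x (VP P)) with hO
  have hcov : Lᶜ ⊆ {x} ∪ (Q ∪ O) := by
    intro v hv
    rw [mem_compl] at hv
    rw [mem_union, mem_singleton, mem_union, hQ, hO, mem_sdiff, mem_sdiff, mem_union, mem_insert]
    by_cases h1 : v = x
    · exact Or.inl h1
    · by_cases h2 : v ∈ VP P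
      · exact Or.inr (Or.inl ⟨h2, hv⟩)
      · refine Or.inr (Or.inr ⟨mem_univ v, ?_⟩)
        rintro (h3 | h3 | h3)
        · exact hv h3
        · exact h1 h3
        · exact h2 h3
  have hdeg : ∀ v ∉ L, Fintype.card W + 4 * k ≤ dg G Q v + dg G O v := by
    intro v hv
    have h1 := degree_eq G L v
    have h2 := dg_mono G hcov v
    have h3 := dg_union_le G {x} (Q ∪ O) v
    have h4 := dg_union_le G Q O v
    have h5 := dg_le_card G {x} v
    rw [card_singleton] at h5
    have h6 := G.minDegree_le_degree v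
    have h7 := hc v hv
    omega
  have hne2 : O.Nonempty := by
    rw [nonempty_iff_ne_empty]
    intro hO0
    have h1 : ∀ v ∈ Q, 4 * k + 1 ≤ dg G Q v := by
      intro v hv
      have h2 := hdeg v (mem_sdiff.1 hv).2
      rw [hO0] at h2
      have h3 := dg_le_card G (∅ : Finset V) v
      rw [card_empty] at h3
      omega
    have h2 := sum_le_sum h1
    rw [sum_const, smul_eq_mul] at h2
    have h3 := fan_count G hP
    rw [← hQ] at h3
    have h4 : (univ \ L).card ≤ 1 + Q.card := by
      have h5 : univ \ L ⊆ {x} ∪ Q := by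
        intro v hv
        have h6 := hcov (mem_compl.2 (mem_sdiff.1 hv).2)
        rw [hO0, union_empty] at h6
        exact h6
      have h6 := card_le_card h5
      have h7 := card_union_le {x} Q
      rw [card_singleton] at h7
      omega
    have h5 : 1 ≤ Q.card := by omega
    have h6 : Q.card * (4 * k + 1) ≤ 4 * k * Q.card := h2.trans h3
    have h7 : Q.card * (4 * k + 1) = 4 * k * Q.card + Q.card := by ring
    omega
  obtain ⟨g', hg', hgO⟩ := embed_in G hT hne2 (fun o ho => by
    have h1 := (mem_sdiff.1 ho).2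
    rw [mem_union, mem_insert, not_or, not_or] at h1
    obtain ⟨h2, h3, h4⟩ := h1
    have h5 := hdeg o h2
    have h6 := fan_deg_all G hP h2 h3 (fun i hi => h4 (by
      unfold VP
      rw [mem_biUnion]
      exact ⟨i, mem_univ i, List.mem_toFinset.2 hi⟩))
    rw [← hQ] at h6
    omega)
  have hval : Valid G T k g' H (insert x B) (L ∪ insert x (VP P)) :=
    ⟨fan_car G hcar hxL hPf, hg', fun y => (mem_sdiff.1 (hgO y)).2⟩
  have h1 := h.maxB _ _ _ _ hval
  rw [card_insert_of_notMem hxB] at h1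
  omega

end

end Pool.Agent.Lib_MP_f6e057_co.AC
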