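import Pool.Agent.Lib_MP_f6e057_co.AC.StepB
import Pool.Agent.Lib_MP_f6e057_co.AC.StepC
import Pool.Agent.Lib_MP_f6e057_co.AC.StepD
import Pool.Agent.Lib_MP_f6e057_co.AC.OptExists

/-!
# Assembly
-/

set_option autoImplicit false
set_option linter.unusedSectionVars false

namespace Pool.Agent.Lib_MP_f6e057_co.AC

open Finset

theorem additive {V W : Type} [Fintype V] [DecidableEq V] [Fintype W] (G : SimpleGraph V)
    [DecidableRel G.Adj] (T : SimpleGraph W) (hT : T.IsTree) {k : ℕ} (hk : 1 ≤ k)
    (hG : KConnected k G)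
    (hd : Fintype.card W + 3 * k ^ 2 + 8 * k + 1 ≤ G.minDegree) :
    ∃ φ : W ↪ V, (∀ u v, T.Adj u v → G.Adj (φ u) (φ v)) ∧
      KConnected k (G.induce (Set.range φ)ᶜ) := by
  classical
  obtain ⟨g, H, B, L, h⟩ := exists_opt G hT hk (by omega : Fintype.card W + 4 * k ≤ G.minDegree)
  have hinj := h.val.copy.1
  by_cases hne : Fintype.card W < (univ \ L).card
  · exact (stepD G hT hG h hd hne (stepB G hT hk h (by omega) hne)).elim
  · -- the copy is the whole complement of `L`
    have hsub : univ.image g ⊆ univ \ L := by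
      intro v hv
      obtain ⟨x, -, rfl⟩ := mem_image.1 hv
      exact mem_sdiff.2 ⟨mem_univ _, h.val.out x⟩
    have hcard : (univ.image g).card = Fintype.card W := by
      rw [card_image_of_injective _ hinj, card_univ]
    have heq : univ.image g = univ \ L := eq_of_subset_of_card_le hsub (by omega)
    have hcov : ∀ v, v ∉ L → ∃ x, g x = v := by
      intro v hv
      have : v ∈ univ.image g := by rw [heq]; exact mem_sdiff.2 ⟨mem_univ _, hv⟩
      obtain ⟨x, -, hx⟩ := mem_image.1 this
      exact ⟨x, hx⟩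
    have hBL : B = L := stepC G hk h hcov (by nlinarith)
    subst hBL
    have hL : B = (univ.image g)ᶜ := by
      rw [heq]
      ext v
      simp
    refine ⟨⟨g, hinj⟩, h.val.copy.2, ?_⟩
    have hc := h.val.car
    rw [hL] at hc
    have := kconn_of_car G hc
    have hr : (Set.range (⟨g, hinj⟩ : W ↪ V))ᶜ = (((univ.image g : Finset V) : Set V))ᶜ := by
      simp
    rw [hr]
    exact this

end Pool.Agent.Lib_MP_f6e057_co.AC
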