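import Pool.Agent.Lib_MP_f6e057_co.AC.Defs

/-!
# Menger's theorem, set version, with list paths

The proof: Hall's theorem for the sets `{v ∈ R \ A : u = v or u adjacent to v}`, enlarged by
`|A ∩ R| - n` dummies, for `u ∈ R \ C`. Following the resulting injection from the points of `A` one
gets disjoint lists; all but `|A ∩ R| - n` of them end in `C`.
-/

set_option autoImplicit false
set_option linter.unusedSectionVars false

namespace Pool.Agent.Lib_MP_f6e057_co.AC

open Finset

namespace Mng

section orbit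
variable {V : Type*} (s : V → Option V)

/-- the orbit of a point under a partial map -/
def orb : ℕ → V → Option V
  | 0, a => some a
  | i + 1, a => (orb i a).bind s

variable {s}

theorem orb_inj {A : Set V} (hA : ∀ u v, s u = some v → v ∉ A)
    (hs : ∀ u u' v, s u = some v → s u' = some v → u = u') :
    ∀ (i j : ℕ) (a b v : V), a ∈ A → b ∈ A → orb s i a = some v → orb s j b = some v →
      i = j ∧ a = b := by
  intro i
  induction i with
  | zero =>
    intro j a b v ha hb h1 h2
    have h1' : a = v := by simpa [orb] using h1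
    cases j with
    | zero =>
      have h2' : b = v := by simpa [orb] using h2
      exact ⟨rfl, h1'.trans h2'.symm⟩
    | succ j =>
      rw [orb, Option.bind_eq_some_iff] at h2
      obtain ⟨w, -, hw⟩ := h2
      exact absurd (h1' ▸ ha) (hA w v hw)
  | succ i ih =>
    intro j a b v ha hb h1 h2
    rw [orb, Option.bind_eq_some_iff] at h1
    obtain ⟨w, hw, hwv⟩ := h1
    cases j with
    | zero =>
      have h2' : b = v := by simpa [orb] using h2
      exact absurd (h2' ▸ hb) (hA w v hwv)
    | succ j =>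
      rw [orb, Option.bind_eq_some_iff] at h2
      obtain ⟨w', hw', hwv'⟩ := h2
      have h3 : w = w' := hs w w' v hwv hwv'
      subst h3
      obtain ⟨h4, h5⟩ := ih j a b w ha hb hw hw'
      exact ⟨by rw [h4], h5⟩

theorem orb_none_succ {i : ℕ} {a : V} (h : orb s i a = none) : orb s (i + 1) a = none := by
  rw [orb, h]
  rfl

theorem orb_ends [Finite V] {A : Set V} (hA : ∀ u v, s u = some v → v ∉ A)
    (hs : ∀ u u' v, s u = some v → s u' = some v → u = u') {a : V} (ha : a ∈ A) :
    ∃ N : ℕ, ∃ x : ℕ → V, (∀ i ≤ N, orb s i a = some (x i)) ∧ s (x N) = none := by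
  classical
  have hex : ∃ i, orb s i a = none := by
    by_contra hcon
    push Not at hcon
    choose x hx using fun i => Option.ne_none_iff_exists'.1 (hcon i)
    have hinj : Function.Injective x := by
      intro i j hij
      exact (orb_inj hA hs i j a a (x i) ha ha (hx i) (by rw [hij]; exact hx j)).1
    exact not_injective_infinite_finite x hinj
  obtain ⟨N, hN⟩ : ∃ N, Nat.find hex = N + 1 := by
    refine ⟨Nat.find hex - 1, ?_⟩
    have : Nat.find hex ≠ 0 := by
      intro h0
      have := Nat.find_spec hex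
      rw [h0] at this
      simp [orb] at this
    omega
  have hlt : ∀ i, i ≤ N → ∃ v, orb s i a = some v := by
    intro i hi
    exact Option.ne_none_iff_exists'.1 (Nat.find_min hex (by omega))
  have : Nonempty V := ⟨a⟩
  choose! x hx using hlt
  refine ⟨N, x, hx, ?_⟩
  have h1 := Nat.find_spec hex
  rw [hN, orb, hx N le_rfl] at h1
  exact h1

end orbit

end Mng

section
variable {V : Type*} [Fintype V] [DecidableEq V] (G : SimpleGraph V) [DecidableRel G.Adj]

theorem Mng.chain_in {S R A N : Finset V} {p : List V} (hc : p.IsChain G.Adj)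
    (hp : ∀ v ∈ p, v ∈ R ∧ v ∉ (A ∩ R ∪ N) \ S)
    (hN : ∀ u ∈ S, ∀ v ∈ R, v ∉ A → G.Adj u v → v ∈ N)
    (hh : ∀ a, p.head? = some a → a ∈ S) : ∀ v ∈ p, v ∈ S := by
  induction p with
  | nil => simp
  | cons u q ih =>
    have huS : u ∈ S := hh u rfl
    rw [List.isChain_cons] at hc
    intro v hv
    rcases List.mem_cons.1 hv with rfl | hv
    · exact huS
    · refine ih hc.2 (fun w hw => hp w (List.mem_cons_of_mem _ hw)) ?_ v hv
      intro w hw
      have hwq : w ∈ q := List.mem_of_mem_head? (by rw [hw]; rfl)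
      have hadj : G.Adj u w := hc.1 w (by rw [hw]; rfl)
      obtain ⟨hwR, hwX⟩ := hp w (List.mem_cons_of_mem _ hwq)
      by_contra hwS
      apply hwX
      rw [mem_sdiff, mem_union, mem_inter]
      refine ⟨?_, hwS⟩
      by_cases hwA : w ∈ A
      · exact Or.inl ⟨hwA, hwR⟩
      · exact Or.inr (hN u huS w hwR hwA hadj)

/-- **Menger.** If fewer than `n` vertices never meet all paths from `A` to `C` inside `R`, then there are
`n` disjoint paths from `A` to `C` inside `R`. -/
theorem menger {n : ℕ} (R A C : Finset V)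
    (h : ∀ X : Finset V, X.card < n → ∃ p, PathL G R A C p ∧ ∀ v ∈ p, v ∉ X) :
    ∃ P : Fin n → List V, Sys G R A C P := by
  classical
  have hcut : ∀ S N : Finset V, Disjoint S C →
      (∀ u ∈ S, ∀ v ∈ R, v ∉ A → G.Adj u v → v ∈ N) → n ≤ ((A ∩ R ∪ N) \ S).card := by
    intro S N hSC hN
    by_contra hcon
    push Not at hcon
    obtain ⟨p, hp, hpX⟩ := h _ hcon
    obtain ⟨a, ha, hpa⟩ := hp.head
    obtain ⟨c, hc, hpc⟩ := hp.last
    have hall := Mng.chain_in G hp.chain (fun v hv => ⟨hp.sub v hv, hpX v hv⟩) hN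
      (by
        intro b hb
        have hba : b = a := by
          rw [hpa] at hb
          exact (Option.some.inj hb).symm
        have hap : a ∈ p := List.mem_of_mem_head? (by rw [hpa]; rfl)
        by_contra hbS
        refine hpX a hap ?_
        rw [mem_sdiff, mem_union, mem_inter]
        exact ⟨Or.inl ⟨ha, hp.sub a hap⟩, hba ▸ hbS⟩)
    have hcp : c ∈ p := List.mem_of_getLast? hpc
    exact disjoint_left.1 hSC (hall c hcp) hc
  have hnA : n ≤ (A ∩ R).card := by
    have := hcut ∅ ∅ (disjoint_empty_left _) (by simp)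
    simpa using this
  obtain ⟨d, hd⟩ : ∃ d, (A ∩ R).card = n + d := ⟨_, (Nat.add_sub_of_le hnA).symm⟩
  -- Hall
  let t : {u : V // u ∈ R ∧ u ∉ C} → Finset (V ⊕ Fin d) := fun u =>
    ((R \ A).filter fun v => u.1 = v ∨ G.Adj u.1 v).disjSum univ
  obtain ⟨f, hfinj, hft⟩ : ∃ f : {u : V // u ∈ R ∧ u ∉ C} → V ⊕ Fin d,
      Function.Injective f ∧ ∀ x, f x ∈ t x := by
    rw [← Finset.all_card_le_biUnion_card_iff_exists_injective]
    intro s
    rcases s.eq_empty_or_nonempty with rfl | ⟨u0, hu0⟩
    · simp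
    set S : Finset V := s.map (Function.Embedding.subtype _) with hS
    have hSm : ∀ u, u ∈ S ↔ ∃ hu : u ∈ R ∧ u ∉ C, (⟨u, hu⟩ : {u : V // u ∈ R ∧ u ∉ C}) ∈ s := by
      intro u
      simp [hS]
    set N : Finset V := (R \ A).filter fun v => ∃ u ∈ S, u = v ∨ G.Adj u v with hN
    have hsub : N.disjSum (univ : Finset (Fin d)) ⊆ s.biUnion t := by
      intro z hz
      rw [mem_biUnion]
      rcases z with v | j
      · rw [inl_mem_disjSum, hN, mem_filter] at hz
        obtain ⟨hv, u, huS, huv⟩ := hz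
        obtain ⟨hu, hus⟩ := (hSm u).1 huS
        refine ⟨⟨u, hu⟩, hus, ?_⟩
        simp only [t]
        rw [inl_mem_disjSum, mem_filter]
        exact ⟨hv, huv⟩
      · refine ⟨u0, hu0, ?_⟩
        simp only [t]
        rw [inr_mem_disjSum]
        exact mem_univ _
    have h1 := card_le_card hsub
    rw [card_disjSum, card_univ, Fintype.card_fin] at h1
    have h2 : n ≤ ((A ∩ R ∪ N) \ S).card := by
      apply hcut
      · rw [disjoint_left]
        intro u hu
        obtain ⟨hu', -⟩ := (hSm u).1 hu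
        exact hu'.2
      · intro u hu v hv hvA huv
        rw [hN, mem_filter, mem_sdiff]
        exact ⟨⟨hv, hvA⟩, u, hu, Or.inr huv⟩
    have h3 : S ⊆ A ∩ R ∪ N := by
      intro u hu
      obtain ⟨hu', -⟩ := (hSm u).1 hu
      rw [mem_union, mem_inter, hN, mem_filter, mem_sdiff]
      by_cases huA : u ∈ A
      · exact Or.inl ⟨huA, hu'.1⟩
      · exact Or.inr ⟨⟨hu'.1, huA⟩, u, hu, Or.inl rfl⟩
    have h4 := card_sdiff_add_card_eq_card h3
    have h5 := card_union_le (A ∩ R) N
    have h6 : S.card = s.card := card_map _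
    omega
  -- the partial map
  let sc : V → Option V := fun u =>
    if hu : u ∈ R ∧ u ∉ C then (f ⟨u, hu⟩).getLeft? else none
  have hsc : ∀ u v, sc u = some v → ∃ hu : u ∈ R ∧ u ∉ C, f ⟨u, hu⟩ = Sum.inl v := by
    intro u v huv
    by_cases hu : u ∈ R ∧ u ∉ C
    · refine ⟨hu, ?_⟩
      simp only [sc, dif_pos hu] at huv
      exact Sum.getLeft?_eq_some_iff.1 huv
    · simp [sc, dif_neg hu] at huv
  have hscn : ∀ u ∈ R, sc u = none → u ∈ C ∨ ∃ (hu : u ∈ R ∧ u ∉ C) (j : Fin d),
      f ⟨u, hu⟩ = Sum.inr j := by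
    intro u hR hun
    by_cases huC : u ∈ C
    · exact Or.inl huC
    right
    refine ⟨⟨hR, huC⟩, ?_⟩
    simp only [sc, dif_pos (And.intro hR huC)] at hun
    rcases hfu : f ⟨u, hR, huC⟩ with v | j
    · rw [hfu] at hun
      simp at hun
    · exact ⟨j, rfl⟩
  have hscR : ∀ u v, sc u = some v → v ∈ R ∧ v ∉ A ∧ (u = v ∨ G.Adj u v) := by
    intro u v huv
    obtain ⟨hu, hfu⟩ := hsc u v huv
    have h1 := hft ⟨u, hu⟩
    rw [hfu] at h1
    simp only [t] at h1
    rw [inl_mem_disjSum, mem_filter, mem_sdiff] at h1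
    exact ⟨h1.1.1, h1.1.2, h1.2⟩
  have hA' : ∀ u v, sc u = some v → v ∉ (A : Set V) := by
    intro u v huv
    exact (hscR u v huv).2.1
  have hinj' : ∀ u u' v, sc u = some v → sc u' = some v → u = u' := by
    intro u u' v h1 h2
    obtain ⟨hu, hfu⟩ := hsc u v h1
    obtain ⟨hu', hfu'⟩ := hsc u' v h2
    have := hfinj (hfu.trans hfu'.symm)
    exact congrArg Subtype.val this
  choose! N x hx hxN using fun (a : V) (ha : a ∈ A ∩ R) =>
    Mng.orb_ends (A := (A : Set V)) hA' hinj' (a := a) (by exact_mod_cast (mem_inter.1 ha).1)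
  have huniq : ∀ a ∈ A ∩ R, ∀ b ∈ A ∩ R, ∀ i ≤ N a, ∀ j ≤ N b, x a i = x b j →
      i = j ∧ a = b := by
    intro a ha b hb i hi j hj hij
    refine Mng.orb_inj hA' hinj' i j a b (x a i) ?_ ?_ (hx a ha i hi) (by
      rw [hij]
      exact hx b hb j hj)
    · exact_mod_cast (mem_inter.1 ha).1
    · exact_mod_cast (mem_inter.1 hb).1
  have hx0 : ∀ a ∈ A ∩ R, x a 0 = a := by
    intro a ha
    have := hx a ha 0 (Nat.zero_le _)
    simp only [Mng.orb] at this
    exact (Option.some.inj this).symm
  have hstep : ∀ a ∈ A ∩ R, ∀ i < N a, sc (x a i) = some (x a (i + 1)) := by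
    intro a ha i hi
    have h1 := hx a ha (i + 1) hi
    rw [Mng.orb, hx a ha i hi.le] at h1
    exact h1
  have hxR : ∀ a ∈ A ∩ R, ∀ i ≤ N a, x a i ∈ R := by
    intro a ha i hi
    cases i with
    | zero =>
      rw [hx0 a ha]
      exact (mem_inter.1 ha).2
    | succ i => exact (hscR _ _ (hstep a ha i hi)).1
  have hpath : ∀ a ∈ A ∩ R, x a (N a) ∈ C →
      PathL G R A C ((List.range (N a + 1)).map (x a)) := by
    intro a ha haC
    refine ⟨?_, ?_, ?_, ?_, ?_⟩
    · rw [List.isChain_map, List.isChain_range_succ]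
      intro m hm
      rcases (hscR _ _ (hstep a ha m hm)).2.2 with h1 | h1
      · have := (huniq a ha a ha m hm.le (m + 1) hm h1).1
        omega
      · exact h1
    · refine List.Nodup.map_on ?_ List.nodup_range
      intro i hi j hj hij
      rw [List.mem_range] at hi hj
      exact (huniq a ha a ha i (by omega) j (by omega) hij).1
    · intro v hv
      obtain ⟨i, hi, rfl⟩ := List.mem_map.1 hv
      rw [List.mem_range] at hi
      exact hxR a ha i (by omega)
    · refine ⟨a, (mem_inter.1 ha).1, ?_⟩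
      rw [List.range_succ_eq_map, List.map_cons, List.head?_cons, hx0 a ha]
    · refine ⟨x a (N a), haC, ?_⟩
      rw [List.range_succ, List.map_append, List.getLast?_append]
      simp
  -- counting
  set Good : Finset V := (A ∩ R).filter fun a => x a (N a) ∈ C with hGood
  have hbad : ((A ∩ R).filter fun a => ¬ x a (N a) ∈ C).card ≤ d := by
    have hdum : ∀ a : {a // a ∈ (A ∩ R).filter fun a => ¬ x a (N a) ∈ C},
        ∃ (j : Fin d) (hu : x a.1 (N a.1) ∈ R ∧ x a.1 (N a.1) ∉ C),
          f ⟨x a.1 (N a.1), hu⟩ = Sum.inr j := by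
      rintro ⟨a, ha⟩
      rw [mem_filter] at ha
      rcases hscn _ (hxR a ha.1 _ le_rfl) (hxN a ha.1) with h1 | ⟨hu, j, hj⟩
      · exact absurd h1 ha.2
      · exact ⟨j, hu, hj⟩
    choose J hJ1 hJ2 using hdum
    have hJinj : Function.Injective J := by
      intro a b hab
      have h1 := hfinj ((hJ2 a).trans ((congrArg Sum.inr hab).trans (hJ2 b).symm))
      have h2 : x a.1 (N a.1) = x b.1 (N b.1) := congrArg Subtype.val h1
      have h3 := (huniq a.1 (mem_filter.1 a.2).1 b.1 (mem_filter.1 b.2).1 _ le_rfl _ le_rfl h2).2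
      exact Subtype.ext h3
    have := Fintype.card_le_of_injective J hJinj
    rwa [Fintype.card_coe, Fintype.card_fin] at this
  have hgood : n ≤ Good.card := by
    have h1 := card_filter_add_card_filter_not (s := A ∩ R) (fun a => x a (N a) ∈ C)
    rw [← hGood] at h1
    omega
  obtain ⟨e⟩ : Nonempty (Fin n ↪ Good) := by
    apply Function.Embedding.nonempty_of_card_le
    rw [Fintype.card_fin, Fintype.card_coe]
    exact hgood
  have hem : ∀ i, (e i).1 ∈ A ∩ R ∧ x (e i).1 (N (e i).1) ∈ C := by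
    intro i
    exact mem_filter.1 (e i).2
  refine ⟨fun i => (List.range (N (e i).1 + 1)).map (x (e i).1), ?_, ?_⟩
  · intro i
    exact hpath _ (hem i).1 (hem i).2
  · intro i j hij v hv hv'
    obtain ⟨m, hm, rfl⟩ := List.mem_map.1 hv
    obtain ⟨m', hm', hmm⟩ := List.mem_map.1 hv'
    rw [List.mem_range] at hm hm'
    have h1 := (huniq _ (hem j).1 _ (hem i).1 m' (by omega) m (by omega) hmm).2
    exact hij (e.injective (Subtype.ext h1)).symm

end

end Pool.Agent.Lib_MP_f6e057_co.AC
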