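import Pool.Agent.Lib_MP_f6e057_co.AC.Defs

/-!
# Basic lemmas on relative neighbourhoods and degrees
-/

set_option autoImplicit false
set_option linter.unusedSectionVars false

namespace Pool.Agent.Lib_MP_f6e057_co.AC

open Finset

section
variable {V : Type*} [Fintype V] [DecidableEq V] (G : SimpleGraph V) [DecidableRel G.Adj]

/-- submodularity (compare `nb_submod` in `Lib_MP_f6e057_co/Basic.lean`) -/
theorem nbL_submod (M A B : Finset V) :
    (nbL G M (A ∩ B)).card + (nbL G M (A ∪ B)).card ≤ (nbL G M A).card + (nbL G M B).card := by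
  have h1 : nbL G M (A ∩ B) ∪ nbL G M (A ∪ B) ⊆ nbL G M A ∪ nbL G M B := by
    intro v hv
    simp only [mem_union, mem_nbL, mem_inter] at hv ⊢
    rcases hv with ⟨hM, h, u, ⟨huA, huB⟩, ha⟩ | ⟨hM, h, u, hu, ha⟩
    · by_cases hvA : v ∈ A
      · right; exact ⟨hM, fun h' => h ⟨hvA, h'⟩, u, huB, ha⟩
      · left; exact ⟨hM, hvA, u, huA, ha⟩
    · rcases hu with hu | hu
      · left; exact ⟨hM, fun h' => h (Or.inl h'), u, hu, ha⟩
      · right; exact ⟨hM, fun h' => h (Or.inr h'), u, hu, ha⟩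
  have h2 : nbL G M (A ∩ B) ∩ nbL G M (A ∪ B) ⊆ nbL G M A ∩ nbL G M B := by
    intro v hv
    simp only [mem_union, mem_nbL, mem_inter] at hv ⊢
    obtain ⟨⟨hM, h, u, ⟨huA, huB⟩, ha⟩, -, h', -⟩ := hv
    exact ⟨⟨hM, fun h'' => h' (Or.inl h''), u, huA, ha⟩,
      ⟨hM, fun h'' => h' (Or.inr h''), u, huB, ha⟩⟩
  have h3 := card_union_add_card_inter (nbL G M (A ∩ B)) (nbL G M (A ∪ B))
  have h4 := card_union_add_card_inter (nbL G M A) (nbL G M B)
  have h5 := card_le_card h1
  have h6 := card_le_card h2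
  omega

/-- `v ∈ N(R')`, `R' = R \ (U ∪ N(U))`, adjacent to `r' ∈ R'`. If `v ∈ R`, then `v ∈ U ∪ N(U)`,
and `v ∈ U` would give `r' ∈ U ∪ N(U)`; if `v ∉ R`, then `v ∈ N(R)`, and again `v ∉ U`. -/
theorem nbL_cut {M R U : Finset V} (hR : R ⊆ M) :
    nbL G M (R \ (U ∪ nbL G M U)) ⊆ (nbL G M R \ U) ∪ (nbL G M U ∩ R) := by
  intro v hv
  rw [mem_nbL] at hv
  obtain ⟨hvM, hv', r, hr, ha⟩ := hv
  rw [mem_sdiff, mem_union, not_or] at hr
  obtain ⟨hrR, hrU, hrN⟩ := hr
  have hvU : v ∉ U := fun h => hrN ((mem_nbL G).2 ⟨hR hrR, hrU, v, h, ha.symm⟩)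
  rw [mem_union, mem_sdiff, mem_inter, mem_nbL]
  by_cases hvR : v ∈ R
  · right
    rw [mem_sdiff, mem_union] at hv'
    push Not at hv'
    rcases hv' hvR with h | h
    · exact absurd h hvU
    · exact ⟨h, hvR⟩
  · left
    exact ⟨⟨hvM, hvR, r, hrR, ha⟩, hvU⟩

/-- the numerical form of `nbL_cut` -/
theorem cut_card {M R U : Finset V} (hR : R ⊆ M) :
    (nbL G M (R \ (U ∪ nbL G M U))).card + (nbL G M R ∩ U).card
      ≤ (nbL G M R).card + (nbL G M U ∩ R).card := by
  have h1 := card_le_card (nbL_cut G (U := U) hR)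
  have h2 := card_union_le (nbL G M R \ U) (nbL G M U ∩ R)
  have h3 := card_sdiff_add_card_inter (nbL G M R) U
  omega

theorem degree_eq (L : Finset V) (v : V) : G.degree v = dg G L v + dg G Lᶜ v := by
  unfold dg
  rw [← card_union_of_disjoint, ← SimpleGraph.card_neighborFinset_eq_degree]
  · congr 1
    ext w
    simp only [SimpleGraph.mem_neighborFinset, mem_union, mem_filter, mem_compl]
    tauto
  · rw [disjoint_left]
    intro w h1 h2
    rw [mem_filter] at h1 h2
    exact (mem_compl.1 h2.1) h1.1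

theorem dg_mono {L L' : Finset V} (h : L ⊆ L') (v : V) : dg G L v ≤ dg G L' v :=
  card_le_card (filter_subset_filter _ h)

theorem dg_union_le (A B : Finset V) (v : V) : dg G (A ∪ B) v ≤ dg G A v + dg G B v := by
  unfold dg
  rw [filter_union]
  exact card_union_le _ _

theorem dg_le_card (L : Finset V) (v : V) : dg G L v ≤ L.card :=
  card_le_card (filter_subset _ _)

theorem dg_lt_card {L : Finset V} {v : V} (hv : v ∈ L) : dg G L v + 1 ≤ L.card := by
  have h : (L.filter fun w => G.Adj v w) ⊂ L :=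
    (ssubset_iff_of_subset (filter_subset _ _)).2
      ⟨v, hv, fun h => G.loopless.irrefl v (mem_filter.1 h).2⟩
  exact card_lt_card h

/-- all neighbours in `L` of a vertex of `U` are in `U` or `N_L(U)` -/
theorem dg_le_of_mem {L U : Finset V} {v : V} (hv : v ∈ U) :
    dg G L v + 1 ≤ U.card + (nbL G L U).card := by
  have h1 : (L.filter fun w => G.Adj v w) ⊆ (U.erase v) ∪ nbL G L U := by
    intro w hw
    rw [mem_filter] at hw
    rw [mem_union, mem_erase, mem_nbL]
    by_cases hwU : w ∈ U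
    · left; exact ⟨hw.2.ne', hwU⟩
    · right; exact ⟨hw.1, hwU, v, hv, hw.2⟩
  have h2 := card_le_card h1
  have h3 := card_union_le (U.erase v) (nbL G L U)
  have h4 := card_erase_of_mem hv
  have h5 : 0 < U.card := card_pos.mpr ⟨v, hv⟩
  unfold dg
  omega

theorem tE_erase {L : Finset V} {v : V} (hv : v ∈ L) :
    tE G L = tE G (L.erase v) + 2 * dg G L v := by
  have h1 : ∀ w, dg G L w = dg G (L.erase v) w + if G.Adj w v then 1 else 0 := by
    intro w
    unfold dg
    conv_lhs => rw [← insert_erase hv]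
    rw [filter_insert]
    split_ifs with h
    · rw [card_insert_of_notMem]
      intro hh
      exact (mem_erase.1 (mem_filter.1 hh).1).1 rfl
    · rfl
  have h2 : dg G (L.erase v) v = dg G L v := by
    have := h1 v
    simpa using this.symm
  have h3 : tE G L = dg G L v + ∑ w ∈ L.erase v, dg G L w := by
    unfold tE
    rw [← add_sum_erase _ _ hv]
  have h4 : ∑ w ∈ L.erase v, dg G L w = tE G (L.erase v) + dg G (L.erase v) v := by
    rw [sum_congr rfl (fun w _ => h1 w), sum_add_distrib]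
    congr 1
    unfold dg
    rw [card_filter]
    apply sum_congr rfl
    intro w _
    simp only [G.adj_comm w v]
  rw [h3, h4, h2]
  ring

end

end Pool.Agent.Lib_MP_f6e057_co.AC
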