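import Pool.Agent.Lib_MP_f6e057_co.AC.Attach
import Pool.Agent.Lib_MP_f6e057_co.Exchange

/-!
# All vertices outside the carrier have few neighbours in it
-/

set_option autoImplicit false
set_option linter.unusedSectionVars false

namespace Pool.Agent.Lib_MP_f6e057_co.AC

open Finset

section
variable {V : Type*} [Fintype V] [DecidableEq V] (G : SimpleGraph V) [DecidableRel G.Adj]

/-- **Proof.** Let `S = univ \ L`, `Z = {z ∈ S | dg G L z > 3 k^2 + 4 k}`. For every copy `g'` of `T` with
`g' x ∉ L` for all `x`, `(g', H, B, L)` is again `Opt` (the fields do not depend on `g`), so `attach` shows that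
`g'` covers `Z`. Suppose `Z ≠ ∅`. Apply `Exch.exchange` to the graph `G.induce {v | v ∉ L}` (a fintype with
more than `|W|` elements by `hne`), the copy `g` and the set of its vertices in `Z`: a vertex `v ∉ Z` of it
has degree `dg G Lᶜ v = degree v - dg G L v ≥ |W|`. We get a copy missing some `z ∈ Z`,
contradiction. -/
theorem stepB {W : Type*} [Fintype W] {T : SimpleGraph W} (hT : T.IsTree) {k : ℕ}
    (hk : 1 ≤ k) {g : W → V} {H B L : Finset V} (h : Opt G T k g H B L)
    (hd : Fintype.card W + (3 * k ^ 2 + 4 * k) ≤ G.minDegree)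
    (hne : Fintype.card W < (univ \ L).card) :
    ∀ u ∉ L, dg G L u ≤ 3 * k ^ 2 + 4 * k := by
  classical
  intro u0 hu0
  by_contra hcon
  -- the graph outside the carrier
  let S : Set V := {v | v ∉ L}
  let G' : SimpleGraph S := G.induce S
  let Z : Finset S := univ.filter fun z => 3 * k ^ 2 + 4 * k < dg G L z.1
  have hZ : Z.Nonempty := ⟨⟨u0, hu0⟩, mem_filter.2 ⟨mem_univ _, by
    show 3 * k ^ 2 + 4 * k < dg G L u0
    omega⟩⟩
  have hcardS : Fintype.card S = (univ \ L).card := by
    rw [← Fintype.card_coe]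
    apply Fintype.card_congr
    exact Equiv.subtypeEquivRight (fun v => by simp [S])
  have hdegS : ∀ v : S, v ∉ Z → Fintype.card W ≤ G'.degree v := by
    intro v hv
    have h1 : dg G L v.1 ≤ 3 * k ^ 2 + 4 * k := by
      by_contra h2
      exact hv (mem_filter.2 ⟨mem_univ _, by omega⟩)
    have h2 := degree_eq G L v.1
    have h3 := G.minDegree_le_degree v.1
    have h4 : dg G Lᶜ v.1 ≤ G'.degree v := by
      rw [← SimpleGraph.card_neighborFinset_eq_degree]
      unfold dg
      have h5 : (Lᶜ.filter fun w => G.Adj v.1 w) ⊆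
          (G'.neighborFinset v).map (Function.Embedding.subtype _) := by
        intro w hw
        rw [mem_filter, mem_compl] at hw
        rw [mem_map]
        exact ⟨⟨w, hw.1⟩, (SimpleGraph.mem_neighborFinset _ _ _).2 hw.2, rfl⟩
      have h6 := card_le_card h5
      rwa [card_map] at h6
    omega
  let f : W → S := fun a => ⟨g a, h.val.out a⟩
  have hf : Exch.IsCopy T G' f := by
    refine ⟨fun a b hab => h.val.copy.1 (congrArg Subtype.val hab), fun a b hab => ?_⟩
    exact h.val.copy.2 a b hab
  obtain ⟨g', hg', z, hzZ, hz⟩ := Exch.exchange hT hZ hdegS (by rw [hcardS]; exact hne) hf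
  -- the new copy
  have hval : Valid G T k (fun a => (g' a).1) H B L := by
    refine ⟨h.val.car, ⟨fun a b hab => hg'.1 (Subtype.ext hab), fun a b hab => hg'.2 a b hab⟩,
      fun a => (g' a).2⟩
  have hopt : Opt G T k (fun a => (g' a).1) H B L := ⟨hval, h.maxB, h.minL, h.maxE⟩
  have h1 := attach G hk hopt z.2 (fun a ha => hz a (Subtype.ext ha))
  have h2 := (mem_filter.1 hzZ).2
  omega

end

end Pool.Agent.Lib_MP_f6e057_co.AC
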